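import Pool.Agent.Lib.MP_e84969_co.GoodCount

/-!
# Almost all subspaces are good: the estimate
-/

set_option linter.unusedSectionVars false

namespace Pool.Agent.Lib.MP_e84969_co

open Module Filter Topology

variable {K : Type*} [Field K]

section BadCount

variable [Finite K]

lemma sum_card_le (n₁ n₂ : ℕ) [Fintype (Submodule K (Fin n₁ → K))] :
    ∑ U : Submodule K (Fin n₁ → K), ((Nat.card K : ℝ) ^ finrank K U) ^ n₂ ≤
      numSub K (n₁ + n₂) := by
  classical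
  have hfK := Fintype.ofFinite K
  have hfin := finite_submodule (K := K) (V := Fin n₁ ⊕ Fin n₂ → K)
  have h1 : Nat.card (Submodule K (Fin n₁ ⊕ Fin n₂ → K)) = numSub K (n₁ + n₂) :=
    card_submodule (by rw [Module.finrank_fintype_fun_eq_card, Fintype.card_sum, Fintype.card_fin,
      Fintype.card_fin])
  have h2 := Nat.card_le_card_of_injective
    (Phi : (Σ U : Submodule K (Fin n₁ → K), Fin n₂ → Fin (finrank K U) → K) → _) Phi_injective
  rw [h1, Nat.card_sigma] at h2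
  have h3 : ∀ U : Submodule K (Fin n₁ → K), Nat.card (Fin n₂ → Fin (finrank K U) → K) =
      (Nat.card K ^ finrank K U) ^ n₂ := by
    intro U
    rw [Nat.card_fun, Nat.card_fun, Nat.card_eq_fintype_card (α := Fin n₂), Fintype.card_fin,
      Nat.card_eq_fintype_card (α := Fin (finrank K U)), Fintype.card_fin]
  rw [Finset.sum_congr rfl fun U _ => h3 U] at h2
  exact_mod_cast h2

lemma bad_count (n₁ n₂ : ℕ) :
    (Nat.card {U : Submodule K (Fin n₁ ⊕ Fin n₂ → K) // ¬ Good2 U} : ℝ) ≤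
      (Nat.card K : ℝ) ^ n₂ * numSub K (n₁ + n₂ - 1) +
        (numSub K n₁ * ((Nat.card K : ℝ) ^ 2) ^ n₂ +
        (n₁ : ℝ) ^ 3 * (Nat.card K : ℝ) ^ 3 * theta K ^ n₂ * numSub K (n₁ + n₂)) := by
  classical
  have hfK := Fintype.ofFinite K
  have hfin := finite_submodule (K := K) (V := Fin n₁ ⊕ Fin n₂ → K)
  have hft := Fintype.ofFinite (Submodule K (Fin n₁ ⊕ Fin n₂ → K))
  have hfin1 := finite_submodule (K := K) (V := Fin n₁ → K)
  have hft1 := Fintype.ofFinite (Submodule K (Fin n₁ → K))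
  let A : Submodule K (Fin n₁ ⊕ Fin n₂ → K) → Prop := fun U =>
    ∃ w ∈ U, w ≠ 0 ∧ ∀ i, w (Sum.inl i) = 0
  let P : (Σ U : Submodule K (Fin n₁ → K), Fin n₂ → Fin (finrank K U) → K) → Prop :=
    fun x => finrank K x.1 ≤ 2 ∨ BadD x.2
  have h1 : Nat.card {U : Submodule K (Fin n₁ ⊕ Fin n₂ → K) // ¬ Good2 U} ≤
      Nat.card {U : Submodule K (Fin n₁ ⊕ Fin n₂ → K) // A U} + Nat.card {x // P x} := by
    rw [Nat.card_eq_fintype_card, Nat.card_eq_fintype_card, Nat.card_eq_fintype_card,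
      Fintype.card_subtype, Fintype.card_subtype, Fintype.card_subtype]
    have hsub : (Finset.univ.filter fun U : Submodule K (Fin n₁ ⊕ Fin n₂ → K) => ¬ Good2 U) ⊆
        (Finset.univ.filter fun U : Submodule K (Fin n₁ ⊕ Fin n₂ → K) => A U) ∪
        (Finset.univ.filter fun x => P x).image Phi := by
      intro U hU
      have hU' := (Finset.mem_filter.1 hU).2
      rw [Finset.mem_union]
      by_cases hA : A U
      · left
        exact Finset.mem_filter.2 ⟨Finset.mem_univ _, hA⟩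
      · right
        obtain ⟨x, hx⟩ := Phi_surj U (fun w hw h0 => by
          by_contra hne
          exact hA ⟨w, hw, hne, h0⟩)
        rw [Finset.mem_image]
        refine ⟨x, Finset.mem_filter.2 ⟨Finset.mem_univ _, ?_⟩, hx⟩
        by_contra hP
        have hP' : ¬ (finrank K x.1 ≤ 2 ∨ BadD x.2) := hP
        push Not at hP'
        apply hU'
        rw [← hx]
        exact good2_Phi x (by omega) hP'.2
    refine (Finset.card_le_card hsub).trans ((Finset.card_union_le _ _).trans ?_)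
    exact Nat.add_le_add_left Finset.card_image_le _
  have h2 : Nat.card {U : Submodule K (Fin n₁ ⊕ Fin n₂ → K) // A U} ≤
      Nat.card K ^ n₂ * numSub K (n₁ + n₂ - 1) := by
    have hcov := card_le_of_cover (K := K) (V := Fin n₁ ⊕ Fin n₂ → K) (t := 1)
      (ι := {v : Fin n₂ → K // v ≠ 0})
      (fun v => Submodule.span K {(Sum.elim (0 : Fin n₁ → K) v.1 : Fin n₁ ⊕ Fin n₂ → K)})
      (by
        rintro ⟨v, hv⟩
        apply finrank_span_singleton
        intro h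
        apply hv
        funext x
        exact congrFun h (Sum.inr x)) A
      (by
        rintro U ⟨w, hw, hne, h0⟩
        refine ⟨⟨fun x => w (Sum.inr x), ?_⟩, ?_⟩
        · intro h
          apply hne
          funext x
          rcases x with x | x
          · exact h0 x
          · exact congrFun h x
        · rw [Submodule.span_singleton_le_iff_mem]
          convert hw using 1
          funext x
          rcases x with x | x
          · exact (h0 x).symm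
          · rfl)
    rw [Module.finrank_fintype_fun_eq_card, Fintype.card_sum, Fintype.card_fin,
      Fintype.card_fin] at hcov
    refine hcov.trans (Nat.mul_le_mul_right _ ?_)
    refine (Nat.card_le_card_of_injective _ Subtype.val_injective).trans ?_
    rw [Nat.card_fun, Nat.card_eq_fintype_card (α := Fin n₂), Fintype.card_fin]
  have h3 : (Nat.card {x // P x} : ℝ) ≤ numSub K n₁ * ((Nat.card K : ℝ) ^ 2) ^ n₂ +
        (n₁ : ℝ) ^ 3 * (Nat.card K : ℝ) ^ 3 * theta K ^ n₂ * numSub K (n₁ + n₂) := by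
    have e : {x // P x} ≃ Σ U : Submodule K (Fin n₁ → K),
        {D : Fin n₂ → Fin (finrank K U) → K // P ⟨U, D⟩} :=
      ⟨fun x => ⟨x.1.1, ⟨x.1.2, x.2⟩⟩, fun x => ⟨⟨x.1, x.2.1⟩, x.2.2⟩, fun _ => rfl, fun _ => rfl⟩
    rw [Nat.card_congr e, Nat.card_sigma]
    push_cast
    have h4 : ∀ U : Submodule K (Fin n₁ → K),
        (Nat.card {D : Fin n₂ → Fin (finrank K U) → K // P ⟨U, D⟩} : ℝ) ≤
        ((Nat.card K : ℝ) ^ 2) ^ n₂ + (n₁ : ℝ) ^ 3 * (Nat.card K : ℝ) ^ 3 * theta K ^ n₂ *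
          ((Nat.card K : ℝ) ^ finrank K U) ^ n₂ := by
      intro U
      have hq1 : (1 : ℝ) ≤ Nat.card K := by exact_mod_cast (one_lt_card (K := K)).le
      by_cases hr : finrank K U ≤ 2
      · have h5 : (Nat.card {D : Fin n₂ → Fin (finrank K U) → K // P ⟨U, D⟩} : ℝ) ≤
            ((Nat.card K : ℝ) ^ 2) ^ n₂ := by
          have h6 : Nat.card {D : Fin n₂ → Fin (finrank K U) → K // P ⟨U, D⟩} ≤
              (Nat.card K ^ finrank K U) ^ n₂ := by
            refine (Nat.card_le_card_of_injective _ Subtype.val_injective).trans ?_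
            rw [Nat.card_fun, Nat.card_fun, Nat.card_eq_fintype_card (α := Fin n₂),
              Fintype.card_fin, Nat.card_eq_fintype_card (α := Fin (finrank K U)),
              Fintype.card_fin]
          have h7 : (Nat.card {D : Fin n₂ → Fin (finrank K U) → K // P ⟨U, D⟩} : ℝ) ≤
              ((Nat.card K : ℝ) ^ finrank K U) ^ n₂ := by exact_mod_cast h6
          refine h7.trans ?_
          exact pow_le_pow_left₀ (by positivity) (pow_le_pow_right₀ hq1 hr) _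
        have h8 : 0 ≤ (n₁ : ℝ) ^ 3 * (Nat.card K : ℝ) ^ 3 * theta K ^ n₂ *
          ((Nat.card K : ℝ) ^ finrank K U) ^ n₂ :=
          mul_nonneg (mul_nonneg (by positivity) (pow_nonneg theta_nonneg _)) (by positivity)
        linarith
      · have h5 : Nat.card {D : Fin n₂ → Fin (finrank K U) → K // P ⟨U, D⟩} ≤
            Nat.card {D : Fin n₂ → Fin (finrank K U) → K // BadD D} := by
          apply Nat.card_le_card_of_injective
            (fun D => ⟨D.1, (D.2 : finrank K U ≤ 2 ∨ BadD D.1).resolve_left hr⟩)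
          intro D D' h
          have h' := congrArg Subtype.val h
          exact Subtype.ext h'
        have h6 : (Nat.card {D : Fin n₂ → Fin (finrank K U) → K // P ⟨U, D⟩} : ℝ) ≤
            (Nat.card {D : Fin n₂ → Fin (finrank K U) → K // BadD D} : ℝ) := by
          exact_mod_cast h5
        have h7 := card_badD (K := K) (m := finrank K U) (n := n₂)
        have h8 : ((finrank K U : ℕ) : ℝ) ^ 3 ≤ (n₁ : ℝ) ^ 3 := by
          apply pow_le_pow_left₀ (Nat.cast_nonneg _)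
          have := Submodule.finrank_le U
          rw [Module.finrank_fin_fun] at this
          exact_mod_cast this
        have h9 : 0 ≤ ((Nat.card K : ℝ) ^ 2) ^ n₂ := by positivity
        have h10 : ((finrank K U : ℕ) : ℝ) ^ 3 * (Nat.card K : ℝ) ^ 3 *
            (theta K ^ n₂ * ((Nat.card K : ℝ) ^ finrank K U) ^ n₂) ≤
            (n₁ : ℝ) ^ 3 * (Nat.card K : ℝ) ^ 3 * theta K ^ n₂ *
              ((Nat.card K : ℝ) ^ finrank K U) ^ n₂ := by
          have h11 : 0 ≤ (Nat.card K : ℝ) ^ 3 *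
            (theta K ^ n₂ * ((Nat.card K : ℝ) ^ finrank K U) ^ n₂) :=
            mul_nonneg (by positivity) (mul_nonneg (pow_nonneg theta_nonneg _) (by positivity))
          nlinarith [mul_le_mul_of_nonneg_right h8 h11]
        linarith
    refine (Finset.sum_le_sum fun U _ => h4 U).trans ?_
    rw [Finset.sum_add_distrib, Finset.sum_const, nsmul_eq_mul, Finset.card_univ,
      ← Nat.card_eq_fintype_card, ← Finset.mul_sum]
    apply add_le_add
    · exact le_of_eq rfl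
    · apply mul_le_mul_of_nonneg_left (sum_card_le n₁ n₂)
      exact mul_nonneg (by positivity) (pow_nonneg theta_nonneg _)
  have h1' : (Nat.card {U : Submodule K (Fin n₁ ⊕ Fin n₂ → K) // ¬ Good2 U} : ℝ) ≤
      Nat.card {U : Submodule K (Fin n₁ ⊕ Fin n₂ → K) // A U} + Nat.card {x // P x} := by
    exact_mod_cast h1
  have h2' : (Nat.card {U : Submodule K (Fin n₁ ⊕ Fin n₂ → K) // A U} : ℝ) ≤
      (Nat.card K : ℝ) ^ n₂ * numSub K (n₁ + n₂ - 1) := by
    exact_mod_cast h2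
  linarith

lemma good2_of_map {ι ι' : Type*} (e : ι ≃ ι') {U : Submodule K (ι' → K)}
    (h : Good2 (U.map (LinearEquiv.funCongrLeft K K e).toLinearMap)) : Good2 U := by
  obtain ⟨m, f, u, hm, hu, hr⟩ := h
  refine ⟨m, fun i => e (f i), fun i x => u i (e.symm x), hm, ⟨?_, ?_, ?_⟩, ?_⟩
  · intro i
    obtain ⟨w, hw, hw'⟩ := hu.mem i
    have : (fun x => u i (e.symm x)) = w := by
      funext x
      rw [← hw']
      change w (e (e.symm x)) = w x
      rw [Equiv.apply_symm_apply]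
    rw [this]
    exact hw
  · intro i j
    simp only [Equiv.symm_apply_apply]
    exact hu.one i j
  · intro w hw
    have h1 := hu.span (fun x => w (e x)) ⟨w, hw, rfl⟩
    funext x
    have h2 := congrFun h1 (e.symm x)
    simp only [Equiv.apply_symm_apply, Finset.sum_apply, Pi.smul_apply] at h2 ⊢
    exact h2
  · intro i j l hij hil hjl a b c
    obtain ⟨x, hx, h1, h2, h3⟩ := hr i j l hij hil hjl a b c
    refine ⟨e x, fun k hk => hx k (e.injective hk), ?_, ?_, ?_⟩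
    · simpa using h1
    · simpa using h2
    · simpa using h3

lemma bad_count' (n₁ n₂ : ℕ) :
    (Nat.card {U : Submodule K (Fin (n₁ + n₂) → K) // ¬ Good2 U} : ℝ) ≤
      (Nat.card K : ℝ) ^ n₂ * numSub K (n₁ + n₂ - 1) +
        (numSub K n₁ * ((Nat.card K : ℝ) ^ 2) ^ n₂ +
        (n₁ : ℝ) ^ 3 * (Nat.card K : ℝ) ^ 3 * theta K ^ n₂ * numSub K (n₁ + n₂)) := by
  refine le_trans ?_ (bad_count n₁ n₂)
  have hfin := finite_submodule (K := K) (V := Fin n₁ ⊕ Fin n₂ → K)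
  have h1 : Nat.card {U : Submodule K (Fin (n₁ + n₂) → K) // ¬ Good2 U} ≤
      Nat.card {U : Submodule K (Fin n₁ ⊕ Fin n₂ → K) // ¬ Good2 U} := by
    apply Nat.card_le_card_of_injective
      (fun U => ⟨U.1.map (LinearEquiv.funCongrLeft K K finSumFinEquiv).toLinearMap,
        fun h => U.2 (good2_of_map _ h)⟩)
    intro U U' h
    have h2 := congrArg Subtype.val h
    simp only at h2
    exact Subtype.ext (Submodule.map_injective_of_injective
      (LinearEquiv.funCongrLeft K K finSumFinEquiv).injective h2)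
  exact_mod_cast h1

/-- Almost all subspaces are good. -/
theorem almost_all_good : ∃ e : ℕ → ℝ, Tendsto e atTop (𝓝 0) ∧ ∀ᶠ n in atTop,
    (Nat.card {U : Submodule K (Fin n → K) // ¬ Good2 U} : ℝ) ≤ e n * numSub K n := by
  have hs := one_lt_sq (K := K)
  have hs0 := sq_pos (K := K)
  have hθ0 := theta_nonneg (K := K)
  have hθ1 := theta_lt_one (K := K)
  let G : ℕ → ℝ := fun m => sq K * (sq K)⁻¹ ^ m + (sq K)⁻¹ ^ m +
    64 * (Nat.card K : ℝ) ^ 3 * (((m : ℝ) + 1) ^ 3 * theta K ^ m)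
  have hinv : (sq K)⁻¹ < 1 := inv_lt_one_of_one_lt₀ hs
  have hinv0 : 0 ≤ (sq K)⁻¹ := inv_nonneg.2 hs0.le
  have hG : Tendsto G atTop (𝓝 0) := by
    have h1 : Tendsto (fun m : ℕ => (sq K)⁻¹ ^ m) atTop (𝓝 0) :=
      tendsto_pow_atTop_nhds_zero_of_lt_one hinv0 hinv
    have h2 : Tendsto (fun m : ℕ => (((m : ℝ) + 1) ^ 3 * theta K ^ m)) atTop (𝓝 0) := by
      have h3 : Tendsto (fun m : ℕ => (8 : ℝ) * ((m : ℝ) ^ 3 * theta K ^ m)) atTop (𝓝 0) := by
        have := (tendsto_pow_const_mul_const_pow_of_lt_one 3 hθ0 hθ1).const_mul (8 : ℝ)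
        simpa using this
      refine tendsto_of_tendsto_of_tendsto_of_le_of_le' tendsto_const_nhds h3 ?_ ?_
      · exact Eventually.of_forall fun m => mul_nonneg (by positivity) (pow_nonneg hθ0 _)
      · filter_upwards [eventually_ge_atTop 1] with m hm
        have hm' : (1 : ℝ) ≤ m := by exact_mod_cast hm
        have h4 : ((m : ℝ) + 1) ^ 3 ≤ 8 * (m : ℝ) ^ 3 := by
          calc ((m : ℝ) + 1) ^ 3 ≤ (2 * (m : ℝ)) ^ 3 := pow_le_pow_left₀ (by positivity) (by linarith) _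
            _ = 8 * (m : ℝ) ^ 3 := by ring
        calc ((m : ℝ) + 1) ^ 3 * theta K ^ m ≤ (8 * (m : ℝ) ^ 3) * theta K ^ m :=
              mul_le_mul_of_nonneg_right h4 (pow_nonneg hθ0 _)
          _ = 8 * ((m : ℝ) ^ 3 * theta K ^ m) := by ring
    have h5 := ((h1.const_mul (sq K)).add h1).add (h2.const_mul (64 * (Nat.card K : ℝ) ^ 3))
    rw [mul_zero, mul_zero, add_zero, add_zero] at h5
    exact h5
  refine ⟨fun n => G (n / 4), hG.comp (Nat.tendsto_div_const_atTop (by norm_num)), ?_⟩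
  filter_upwards [eventually_ge_atTop 8] with n hn
  obtain ⟨n₁, n₂, rfl, hn₂⟩ : ∃ n₁ n₂, n = n₁ + n₂ ∧ n₂ = n / 4 := ⟨n - n / 4, n / 4, by omega, rfl⟩
  have hm2 : 2 ≤ n₂ := by omega
  have hn₁ : 3 * n₂ ≤ n₁ := by omega
  have hn₁' : n₁ ≤ 3 * n₂ + 3 := by omega
  have hG' : G ((n₁ + n₂) / 4) = G n₂ := congrArg G hn₂.symm
  refine (bad_count' n₁ n₂).trans ?_
  rw [hG']
  have hq : (Nat.card K : ℝ) = sq K ^ 2 := sq_sq.symm
  have hN0 : (0 : ℝ) ≤ numSub K (n₁ + n₂) := Nat.cast_nonneg _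
  have t1 : (Nat.card K : ℝ) ^ n₂ * numSub K (n₁ + n₂ - 1) ≤
      (sq K * (sq K)⁻¹ ^ n₂) * numSub K (n₁ + n₂) := by
    have h1 := ratio (K := K) (n₁ + n₂ - 1)
    rw [Nat.sub_add_cancel (by omega)] at h1
    have h2 : (Nat.card K : ℝ) ^ n₂ ≤ sq K * (sq K)⁻¹ ^ n₂ * sq K ^ (n₁ + n₂ - 1) := by
      have h3 : sq K ^ (4 * n₂ - 1) ≤ sq K ^ (n₁ + n₂ - 1) :=
        pow_le_pow_right₀ hs.le (by omega)
      have h4 : sq K * (sq K)⁻¹ ^ n₂ * sq K ^ (4 * n₂ - 1) = sq K ^ (3 * n₂) := by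
        have h5 : sq K * sq K ^ (4 * n₂ - 1) = sq K ^ (3 * n₂) * sq K ^ n₂ := by
          rw [← pow_succ', ← pow_add]; congr 1; omega
        calc sq K * (sq K)⁻¹ ^ n₂ * sq K ^ (4 * n₂ - 1)
            = (sq K * sq K ^ (4 * n₂ - 1)) * (sq K)⁻¹ ^ n₂ := by ring
          _ = sq K ^ (3 * n₂) * (sq K ^ n₂ * (sq K)⁻¹ ^ n₂) := by rw [h5]; ring
          _ = sq K ^ (3 * n₂) := by
              rw [← mul_pow, mul_inv_cancel₀ hs0.ne', one_pow, mul_one]
      calc (Nat.card K : ℝ) ^ n₂ = sq K ^ (2 * n₂) := by rw [hq, ← pow_mul]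
        _ ≤ sq K ^ (3 * n₂) := pow_le_pow_right₀ hs.le (by omega)
        _ = sq K * (sq K)⁻¹ ^ n₂ * sq K ^ (4 * n₂ - 1) := h4.symm
        _ ≤ _ := mul_le_mul_of_nonneg_left h3 (mul_nonneg hs0.le (pow_nonneg hinv0 _))
    calc (Nat.card K : ℝ) ^ n₂ * numSub K (n₁ + n₂ - 1)
        ≤ (sq K * (sq K)⁻¹ ^ n₂ * sq K ^ (n₁ + n₂ - 1)) * numSub K (n₁ + n₂ - 1) :=
          mul_le_mul_of_nonneg_right h2 (Nat.cast_nonneg _)
      _ = (sq K * (sq K)⁻¹ ^ n₂) * (sq K ^ (n₁ + n₂ - 1) * numSub K (n₁ + n₂ - 1)) := by ring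
      _ ≤ _ := mul_le_mul_of_nonneg_left h1 (mul_nonneg hs0.le (pow_nonneg hinv0 _))
  have t2 : (numSub K n₁ : ℝ) * ((Nat.card K : ℝ) ^ 2) ^ n₂ ≤
      ((sq K)⁻¹ ^ n₂) * numSub K (n₁ + n₂) := by
    have h1 := ratio_iter (K := K) (n₁ + n₂) n₂ (by omega)
    rw [Nat.add_sub_cancel] at h1
    have h2 : ((Nat.card K : ℝ) ^ 2) ^ n₂ ≤ (sq K)⁻¹ ^ n₂ * sq K ^ (n₂ * n₁) := by
      have h3 : sq K ^ (n₂ * 6) ≤ sq K ^ (n₂ * n₁) :=
        pow_le_pow_right₀ hs.le (Nat.mul_le_mul_left _ (by omega))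
      have h4 : (sq K)⁻¹ ^ n₂ * sq K ^ (n₂ * 6) = sq K ^ (n₂ * 5) := by
        have h5 : sq K ^ (n₂ * 6) = sq K ^ (n₂ * 5) * sq K ^ n₂ := by
          rw [← pow_add]; rfl
        calc (sq K)⁻¹ ^ n₂ * sq K ^ (n₂ * 6) = sq K ^ (n₂ * 5) * (sq K ^ n₂ * (sq K)⁻¹ ^ n₂) := by
              rw [h5]; ring
          _ = sq K ^ (n₂ * 5) := by
              rw [← mul_pow, mul_inv_cancel₀ hs0.ne', one_pow, mul_one]
      calc ((Nat.card K : ℝ) ^ 2) ^ n₂ = sq K ^ (n₂ * 4) := by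
            rw [hq, ← pow_mul, ← pow_mul]
            ring_nf
        _ ≤ sq K ^ (n₂ * 5) := pow_le_pow_right₀ hs.le (by omega)
        _ = (sq K)⁻¹ ^ n₂ * sq K ^ (n₂ * 6) := h4.symm
        _ ≤ _ := mul_le_mul_of_nonneg_left h3 (pow_nonneg hinv0 _)
    calc (numSub K n₁ : ℝ) * ((Nat.card K : ℝ) ^ 2) ^ n₂
        ≤ numSub K n₁ * ((sq K)⁻¹ ^ n₂ * sq K ^ (n₂ * n₁)) :=
          mul_le_mul_of_nonneg_left h2 (Nat.cast_nonneg _)
      _ = (sq K)⁻¹ ^ n₂ * (sq K ^ (n₂ * n₁) * numSub K n₁) := by ring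
      _ ≤ _ := mul_le_mul_of_nonneg_left h1 (pow_nonneg hinv0 _)
  have t3 : (n₁ : ℝ) ^ 3 * (Nat.card K : ℝ) ^ 3 * theta K ^ n₂ * numSub K (n₁ + n₂) ≤
      (64 * (Nat.card K : ℝ) ^ 3 * (((n₂ : ℝ) + 1) ^ 3 * theta K ^ n₂)) *
        numSub K (n₁ + n₂) := by
    apply mul_le_mul_of_nonneg_right _ hN0
    have h1 : (n₁ : ℝ) ^ 3 ≤ 64 * ((n₂ : ℝ) + 1) ^ 3 := by
      have h2 : (n₁ : ℝ) ≤ 4 * ((n₂ : ℝ) + 1) := by
        have : n₁ ≤ 4 * (n₂ + 1) := by omega
        exact_mod_cast this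
      calc (n₁ : ℝ) ^ 3 ≤ (4 * ((n₂ : ℝ) + 1)) ^ 3 := pow_le_pow_left₀ (Nat.cast_nonneg _) h2 _
        _ = 64 * ((n₂ : ℝ) + 1) ^ 3 := by ring
    have h3 : 0 ≤ (Nat.card K : ℝ) ^ 3 * theta K ^ n₂ :=
      mul_nonneg (by positivity) (pow_nonneg hθ0 _)
    calc (n₁ : ℝ) ^ 3 * (Nat.card K : ℝ) ^ 3 * theta K ^ n₂
        = (n₁ : ℝ) ^ 3 * ((Nat.card K : ℝ) ^ 3 * theta K ^ n₂) := by ring
      _ ≤ (64 * ((n₂ : ℝ) + 1) ^ 3) * ((Nat.card K : ℝ) ^ 3 * theta K ^ n₂) :=
          mul_le_mul_of_nonneg_right h1 h3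
      _ = _ := by ring
  have : G n₂ * (numSub K (n₁ + n₂) : ℝ) = (sq K * (sq K)⁻¹ ^ n₂) * numSub K (n₁ + n₂) +
      ((sq K)⁻¹ ^ n₂) * numSub K (n₁ + n₂) +
      (64 * (Nat.card K : ℝ) ^ 3 * (((n₂ : ℝ) + 1) ^ 3 * theta K ^ n₂)) *
        numSub K (n₁ + n₂) := by
    simp only [G]; ring
  rw [this]
  linarith

end BadCount

end Pool.Agent.Lib.MP_e84969_co
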