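import Pool.Agent.Lib.MP_e84969_co.Fix

/-!
# Existence of configurations for transformations that are far from scalars
-/

set_option linter.unusedSectionVars false

namespace Pool.Agent.Lib.MP_e84969_co

open Module SM

variable {K : Type*} [Field K] {ι : Type*}

/-- `g` agrees with a scalar outside a set of at most `m` coordinates. -/
def Close (g : SM K ι) (m : ℕ) : Prop :=
  g.aut = 1 ∧ ∃ (c : Kˣ) (Q : Finset ι), Q.card ≤ m ∧ ∀ i ∉ Q, g.perm i = i ∧ g.diag i = c

/-- The empty configuration. -/
def Config.zero (g : SM K ι) : Config g 0 where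
  P := Fin.elim0
  x := Fin.elim0
  supp_x := fun a => a.elim0
  supp_y := fun a => a.elim0
  disj := fun a => a.elim0
  card := fun a => a.elim0
  indep := fun a => a.elim0

/-- Adding one more pair to a configuration. -/
lemma Config.extend {g : SM K ι} {κ : ℕ} (C : Config g κ) (P : Finset ι) (x : ι → K)
    (hx : ∀ c, x c ≠ 0 → c ∈ P) (hy : ∀ c, act g x c ≠ 0 → c ∈ P) (hP : P.card ≤ 2)
    (hd : ∀ a, Disjoint P (C.P a)) (hind : ∀ r s : K, r • x = s • act g x → r = 0 ∧ s = 0) :
    Nonempty (Config g (κ + 1)) := by
  refine ⟨{ P := Fin.cons P C.P, x := Fin.cons x C.x, supp_x := ?_, supp_y := ?_, disj := ?_,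
            card := ?_, indep := ?_ }⟩
  · intro a
    refine Fin.cases ?_ (fun a => ?_) a
    · simpa using hx
    · simpa using C.supp_x a
  · intro a
    refine Fin.cases ?_ (fun a => ?_) a
    · simpa using hy
    · simpa using C.supp_y a
  · intro a b
    refine Fin.cases ?_ (fun a => ?_) a <;> refine Fin.cases ?_ (fun b => ?_) b
    · intro h; exact absurd rfl h
    · intro _; simpa using hd b
    · intro _; simpa using (hd a).symm
    · intro h
      have : a ≠ b := fun h' => h (by rw [h'])
      simpa using C.disj a b this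
  · intro a
    refine Fin.cases ?_ (fun a => ?_) a
    · simpa using hP
    · simpa using C.card a
  · intro a
    refine Fin.cases ?_ (fun a => ?_) a
    · simpa using hind
    · simpa using C.indep a

lemma act_single [DecidableEq ι] (g : SM K ι) (i : ι) (b : K) (c : ι) :
    act g (Pi.single i b) c = if c = g.perm i then g.diag c * g.aut b else 0 := by
  rw [act_apply, Pi.single_apply]
  by_cases h : c = g.perm i
  · subst h
    simp
  · have h' : ¬ g.perm.symm c = i := by
      intro h2
      apply h
      rw [← h2, Equiv.apply_symm_apply]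
    simp [h, h']

lemma Config.step [Fintype ι] {g : SM K ι} {κ : ℕ} (C : Config g κ) (hg : ¬ Close g (4 * κ))
    (hι : 4 * κ + 2 ≤ Fintype.card ι) : Nonempty (Config g (κ + 1)) := by
  classical
  let Q : Finset ι := Finset.univ.biUnion C.P
  have hQ : Q.card ≤ 2 * κ := by
    calc Q.card ≤ ∑ a : Fin κ, (C.P a).card := Finset.card_biUnion_le
      _ ≤ ∑ _a : Fin κ, 2 := Finset.sum_le_sum fun a _ => C.card a
      _ = 2 * κ := by simp [mul_comm]
  have hQd : ∀ P : Finset ι, (∀ i ∈ P, i ∉ Q) → ∀ a, Disjoint P (C.P a) := by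
    intro P hP a
    rw [Finset.disjoint_left]
    intro i hi hia
    exact hP i hi (Finset.mem_biUnion.2 ⟨a, Finset.mem_univ a, hia⟩)
  by_cases h1 : ∃ i, i ∉ Q ∧ g.perm i ≠ i ∧ g.perm i ∉ Q
  · obtain ⟨i, hiQ, hpi, hpQ⟩ := h1
    refine C.extend {i, g.perm i} (Pi.single i 1) ?_ ?_ Finset.card_le_two ?_ ?_
    · intro c hc
      rw [Pi.single_apply] at hc
      by_cases h : c = i
      · simp [h]
      · simp [h] at hc
    · intro c hc
      rw [act_single] at hc
      by_cases h : c = g.perm i
      · simp [h]
      · simp [h] at hc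
    · apply hQd
      intro j hj
      rcases Finset.mem_insert.1 hj with rfl | hj
      · exact hiQ
      · rw [Finset.mem_singleton.1 hj]; exact hpQ
    · intro r s hrs
      have e1 := congrFun hrs i
      have e2 := congrFun hrs (g.perm i)
      simp only [Pi.smul_apply, smul_eq_mul, act_single, Pi.single_apply] at e1 e2
      have hpi' : ¬ i = g.perm i := fun h => hpi h.symm
      simp only [hpi', if_false, if_true, mul_one, mul_zero] at e1
      simp only [hpi, if_false, if_true, mul_zero, map_one, mul_one] at e2
      refine ⟨e1, ?_⟩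
      rcases mul_eq_zero.1 e2.symm with h | h
      · exact h
      · exact absurd h (Units.ne_zero _)
  · push Not at h1
    -- now all coordinates outside `Q'` are fixed
    let Q' : Finset ι := Q ∪ Q.image g.perm.symm
    have hQ' : Q'.card ≤ 4 * κ := by
      calc Q'.card ≤ Q.card + (Q.image g.perm.symm).card := Finset.card_union_le _ _
        _ ≤ Q.card + Q.card := Nat.add_le_add_left Finset.card_image_le _
        _ ≤ 4 * κ := by omega
    have hQQ' : ∀ i, i ∉ Q' → i ∉ Q := fun i hi h => hi (Finset.mem_union_left _ h)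
    have hfix : ∀ i, i ∉ Q' → g.perm i = i := by
      intro i hi
      by_contra hne
      have := h1 i (hQQ' i hi) hne
      apply hi
      apply Finset.mem_union_right
      exact Finset.mem_image.2 ⟨g.perm i, this, by simp⟩
    -- the key step: a pair of fixed coordinates with a suitable vector
    have hpair : ∃ i j : ι, i ∉ Q' ∧ j ∉ Q' ∧ i ≠ j ∧ ∃ b : K,
        (g.diag i : K) * b ≠ g.diag j * g.aut b := by
      have hcard : 1 < (Q'ᶜ).card := by
        rw [Finset.card_compl]; omega
      obtain ⟨i, hi, j, hj, hij⟩ := Finset.one_lt_card.1 hcard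
      rw [Finset.mem_compl] at hi hj
      by_cases haut : g.aut = 1
      · -- otherwise `g` is close to a scalar
        have hex : ∃ k, k ∉ Q' ∧ g.diag k ≠ g.diag i := by
          by_contra hcon
          push Not at hcon
          exact hg ⟨haut, g.diag i, Q', hQ', fun k hk => ⟨hfix k hk, hcon k hk⟩⟩
        obtain ⟨k, hk, hki⟩ := hex
        refine ⟨i, k, hi, hk, ?_, 1, ?_⟩
        · rintro rfl; exact hki rfl
        · rw [map_one, mul_one, mul_one]
          intro h
          exact hki (Units.ext h.symm)
      · by_cases hd : g.diag i = g.diag j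
        · have : ∃ b : K, g.aut b ≠ b := by
            by_contra hcon
            push Not at hcon
            exact haut (RingEquiv.ext hcon)
          obtain ⟨b, hb⟩ := this
          refine ⟨i, j, hi, hj, hij, b, ?_⟩
          rw [hd]
          intro h
          exact hb (mul_left_cancel₀ (Units.ne_zero _) h).symm
        · refine ⟨i, j, hi, hj, hij, 1, ?_⟩
          rw [map_one, mul_one, mul_one]
          intro h
          exact hd (Units.ext h)
    obtain ⟨i, j, hi, hj, hij, b, hb⟩ := hpair
    have hact : ∀ c, act g (Pi.single i 1 + Pi.single j b) c =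
        (if c = i then (g.diag i : K) else 0) + (if c = j then g.diag j * g.aut b else 0) := by
      intro c
      rw [act_add, Pi.add_apply, act_single, act_single, hfix i hi, hfix j hj]
      congr 1
      · by_cases h : c = i
        · simp [h]
        · simp [h]
      · by_cases h : c = j
        · simp [h]
        · simp [h]
    refine C.extend {i, j} (Pi.single i 1 + Pi.single j b) ?_ ?_ Finset.card_le_two ?_ ?_
    · intro c hc
      by_cases h : c = i
      · simp [h]
      · by_cases h' : c = j
        · simp [h']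
        · simp [h, h'] at hc
    · intro c hc
      rw [hact] at hc
      by_cases h : c = i
      · simp [h]
      · by_cases h' : c = j
        · simp [h']
        · simp [h, h'] at hc
    · apply hQd
      intro k hk
      rcases Finset.mem_insert.1 hk with rfl | hk
      · exact hQQ' _ hi
      · rw [Finset.mem_singleton.1 hk]; exact hQQ' _ hj
    · intro r s hrs
      have e1 := congrFun hrs i
      have e2 := congrFun hrs j
      simp only [Pi.smul_apply, smul_eq_mul, hact, Pi.add_apply, Pi.single_apply] at e1 e2
      have hji : ¬ j = i := fun h => hij h.symm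
      simp only [hij, if_false, if_true, add_zero, mul_one] at e1
      simp only [hji, if_false, if_true, zero_add] at e2
      by_cases hs : s = 0
      · rw [hs, zero_mul] at e1
        exact ⟨e1, hs⟩
      · exfalso
        apply hb
        rw [e1] at e2
        have : s * ((g.diag i : K) * b) = s * (g.diag j * g.aut b) := by
          rw [← e2]; ring
        exact mul_left_cancel₀ hs this

lemma Close.mono {g : SM K ι} {m m' : ℕ} (h : Close g m) (hm : m ≤ m') : Close g m' := by
  obtain ⟨h1, c, Q, hQ, h2⟩ := h
  exact ⟨h1, c, Q, hQ.trans hm, h2⟩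

lemma exists_config [Fintype ι] {g : SM K ι} (κ : ℕ) (hg : ¬ Close g (4 * (κ - 1)))
    (hι : 4 * (κ - 1) + 2 ≤ Fintype.card ι) : Nonempty (Config g κ) := by
  induction κ with
  | zero => exact ⟨Config.zero g⟩
  | succ κ ih =>
    have hg' : ¬ Close g (4 * κ) := hg
    obtain ⟨C⟩ := ih (fun h => hg' (h.mono (by omega))) (by
      have : 4 * κ + 2 ≤ Fintype.card ι := hι
      omega)
    exact C.step hg' hι

/-- The number of transformations that are close to scalars. -/
lemma card_close [Finite K] (n m : ℕ) (hn : 0 < n) :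
    Nat.card {g : SM K (Fin n) // Close g m} ≤ Nat.card K ^ (m + 1) * n ^ (2 * m) := by
  classical
  have hfin : Finite Kˣ := inferInstance
  have hex : ∀ g : {g : SM K (Fin n) // Close g m}, ∃ (c : Kˣ) (f : Fin m → Fin n),
      ∀ i, (∀ a, f a ≠ i) → g.1.perm i = i ∧ g.1.diag i = c := by
    rintro ⟨g, -, c, Q, hQ, h⟩
    let e : Fin Q.card ≃ Q := (Fintype.equivFinOfCardEq (Fintype.card_coe Q)).symm
    refine ⟨c, fun a => if ha : (a : ℕ) < Q.card then (e ⟨a, ha⟩ : Q) else ⟨0, hn⟩, ?_⟩
    intro i hi
    apply h
    intro hiQ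
    have h1 := (e.symm ⟨i, hiQ⟩).isLt
    apply hi ⟨(e.symm ⟨i, hiQ⟩ : ℕ), lt_of_lt_of_le h1 hQ⟩
    simp only [h1, dif_pos, Fin.eta, Equiv.apply_symm_apply]
  choose c f hf using hex
  have hinj : Function.Injective (fun g : {g : SM K (Fin n) // Close g m} =>
      ((c g, f g, fun a => g.1.perm (f g a), fun a => g.1.diag (f g a)) :
        Kˣ × (Fin m → Fin n) × (Fin m → Fin n) × (Fin m → Kˣ))) := by
    intro g g' h
    simp only [Prod.mk.injEq] at h
    obtain ⟨h1, h2, h3, h4⟩ := h
    apply Subtype.ext
    have haut : g.1.aut = g'.1.aut := by rw [g.2.1, g'.2.1]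
    have hp : ∀ i, g.1.perm i = g'.1.perm i ∧ g.1.diag i = g'.1.diag i := by
      intro i
      by_cases hi : ∃ a, f g a = i
      · obtain ⟨a, rfl⟩ := hi
        refine ⟨?_, ?_⟩
        · have := congrFun h3 a
          rw [this, ← h2]
        · have := congrFun h4 a
          rw [this, ← h2]
      · push Not at hi
        have e1 := hf g i hi
        have e2 := hf g' i (by rw [← h2]; exact hi)
        exact ⟨by rw [e1.1, e2.1], by rw [e1.2, e2.2, h1]⟩
    ext1
    · ext i; rw [(hp i).1]
    · funext i; exact (hp i).2
    · exact haut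
  have h1 := Nat.card_le_card_of_injective _ hinj
  rw [Nat.card_prod, Nat.card_prod, Nat.card_prod, Nat.card_fun, Nat.card_fun] at h1
  simp only [Nat.card_eq_fintype_card (α := Fin m), Nat.card_eq_fintype_card (α := Fin n),
    Fintype.card_fin] at h1
  have h2 : Nat.card Kˣ ≤ Nat.card K :=
    Nat.card_le_card_of_injective (fun u : Kˣ => (u : K)) Units.val_injective
  calc Nat.card {g : SM K (Fin n) // Close g m}
      ≤ Nat.card Kˣ * (n ^ m * (n ^ m * Nat.card Kˣ ^ m)) := h1
    _ ≤ Nat.card K * (n ^ m * (n ^ m * Nat.card K ^ m)) := by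
        apply Nat.mul_le_mul h2
        apply Nat.mul_le_mul_left
        apply Nat.mul_le_mul_left
        exact Nat.pow_le_pow_left h2 m
    _ = Nat.card K ^ (m + 1) * n ^ (2 * m) := by ring

lemma close_zero_iff {g : SM K ι} : Close g 0 ↔ ∃ c, g = scalar K ι c := by
  constructor
  · rintro ⟨h1, c, Q, hQ, h2⟩
    have hQ0 : Q = ∅ := Finset.card_eq_zero.1 (Nat.le_zero.1 hQ)
    subst hQ0
    refine ⟨c, ?_⟩
    ext1
    · ext i; exact (h2 i (Finset.notMem_empty i)).1
    · funext i; exact (h2 i (Finset.notMem_empty i)).2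
    · exact h1
  · rintro ⟨c, rfl⟩
    exact ⟨rfl, c, ∅, by simp, fun i _ => ⟨rfl, rfl⟩⟩

end Pool.Agent.Lib.MP_e84969_co
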