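import Mathlib

/-!
# Counting subspaces of a finite vector space
-/

set_option linter.unusedSectionVars false

namespace Pool.Agent.Lib.MP_e84969_co

open Module

variable (K : Type*) [Field K]

/-- The total number of subspaces of `K^n`. -/
noncomputable def numSub (n : ℕ) : ℕ := Nat.card (Submodule K (Fin n → K))

variable {K}

section Basic

variable [Finite K] {V : Type*} [AddCommGroup V] [Module K V] [Module.Finite K V]

lemma finite_submodule : Finite (Submodule K V) := by
  have : Finite V := Module.finite_of_finite K
  infer_instance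

lemma numSub_pos (n : ℕ) : 0 < numSub K n := by
  have : Finite (Submodule K (Fin n → K)) := finite_submodule
  exact Nat.card_pos

lemma card_submodule {n : ℕ} (h : finrank K V = n) : Nat.card (Submodule K V) = numSub K n := by
  have e : V ≃ₗ[K] (Fin n → K) := LinearEquiv.ofFinrankEq _ _ (by simp [h])
  exact Nat.card_congr (Submodule.orderIsoMapComap e).toEquiv

/-- The number of subspaces containing a given subspace. -/
lemma card_above (J : Submodule K V) :
    Nat.card {U : Submodule K V // J ≤ U} = numSub K (finrank K V - finrank K J) := by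
  rw [← card_submodule (V := V ⧸ J) (Submodule.finrank_quotient J)]
  exact (Nat.card_congr (Submodule.comapMkQRelIso J).toEquiv).symm

/-- Sum over all subspaces of `q ^ dim`, bounded by the number of subspaces one dimension up. -/
lemma sum_pow_finrank_le [Fintype (Submodule K V)] :
    ∑ U : Submodule K V, Nat.card K ^ finrank K U ≤ numSub K (finrank K V + 1) := by
  classical
  have : Finite (Submodule K (V × K)) := finite_submodule
  have := Fintype.ofFinite (Submodule K (V × K))
  have h1 : Nat.card (Submodule K (V × K)) = numSub K (finrank K V + 1) :=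
    card_submodule (by rw [Module.finrank_prod, Module.finrank_self])
  have h0 : Nat.card (Submodule K (V × K)) =
      (Finset.univ : Finset (Submodule K (V × K))).card := by
    rw [Nat.card_eq_fintype_card, Finset.card_univ]
  rw [← h1, h0,
    Finset.card_eq_sum_card_fiberwise (f := fun X : Submodule K (V × K) =>
      X.map (LinearMap.fst K V K)) (t := Finset.univ) (fun _ _ => Finset.mem_coe.2 (Finset.mem_univ _))]
  refine Finset.sum_le_sum fun U _ => ?_
  have : Finite (U →ₗ[K] K) := Module.finite_of_finite K
  have := Fintype.ofFinite (U →ₗ[K] K)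
  have h2 : Nat.card (U →ₗ[K] K) = Nat.card K ^ finrank K U := by
    rw [Module.natCard_eq_pow_finrank (K := K) (V := U →ₗ[K] K)]
    congr 1
    exact Subspace.dual_finrank_eq (K := K) (V := U)
  rw [← h2, Nat.card_eq_fintype_card, ← Finset.card_univ]
  refine Finset.card_le_card_of_injOn
    (fun f => LinearMap.range (U.subtype.prod f)) ?_ ?_
  · intro f _
    simp only [Finset.coe_filter, Finset.mem_univ, true_and, Set.mem_ofPred_eq]
    rw [LinearMap.range_eq_map, ← Submodule.map_comp, LinearMap.fst_prod, ← LinearMap.range_eq_map]
    exact U.range_subtype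
  · intro f _ f' _ hff
    simp only at hff
    ext u
    have : ((u : V), f u) ∈ LinearMap.range (U.subtype.prod f') := by
      rw [← hff]
      exact ⟨u, rfl⟩
    obtain ⟨u', hu'⟩ := this
    have h3 : (u' : V) = u := congrArg Prod.fst hu'
    have h4 : f' u' = f u := congrArg Prod.snd hu'
    have h5 : u' = u := Subtype.ext h3
    rw [← h4, h5]

/-- Sum over all subspaces of `q ^ codim`, bounded by the number of subspaces one dimension up. -/
lemma sum_pow_codim_le [Fintype (Submodule K V)] :
    ∑ U : Submodule K V, Nat.card K ^ (finrank K V - finrank K U) ≤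
      numSub K (finrank K V + 1) := by
  classical
  have : Finite (Submodule K (V × K)) := finite_submodule
  have := Fintype.ofFinite (Submodule K (V × K))
  have h1 : Nat.card (Submodule K (V × K)) = numSub K (finrank K V + 1) :=
    card_submodule (by rw [Module.finrank_prod, Module.finrank_self])
  have h0 : Nat.card (Submodule K (V × K)) =
      (Finset.univ : Finset (Submodule K (V × K))).card := by
    rw [Nat.card_eq_fintype_card, Finset.card_univ]
  rw [← h1, h0,
    Finset.card_eq_sum_card_fiberwise (f := fun X : Submodule K (V × K) =>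
      X.comap (LinearMap.inl K V K)) (t := Finset.univ) (fun _ _ => Finset.mem_coe.2 (Finset.mem_univ _))]
  refine Finset.sum_le_sum fun U _ => ?_
  have : Finite (V ⧸ U) := Module.finite_of_finite K
  have := Fintype.ofFinite (V ⧸ U)
  have h2 : Nat.card (V ⧸ U) = Nat.card K ^ (finrank K V - finrank K U) := by
    rw [Module.natCard_eq_pow_finrank (K := K) (V := V ⧸ U), Submodule.finrank_quotient]
  rw [← h2, Nat.card_eq_fintype_card, ← Finset.card_univ]
  have key : ∀ (a : V ⧸ U) (x : V × K), x ∈ U.map (LinearMap.inl K V K) ⊔
      Submodule.span K {((a.out : V), (1 : K))} ↔ x.1 - x.2 • (a.out : V) ∈ U := by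
    intro a x
    rw [Submodule.mem_sup]
    constructor
    · rintro ⟨y, hy, z, hz, rfl⟩
      obtain ⟨u, hu, rfl⟩ := hy
      obtain ⟨c, rfl⟩ := Submodule.mem_span_singleton.1 hz
      simpa using hu
    · intro h
      refine ⟨(x.1 - x.2 • (a.out : V), 0), ⟨_, h, rfl⟩, x.2 • ((a.out : V), (1 : K)),
        Submodule.smul_mem _ _ (Submodule.mem_span_singleton_self _), ?_⟩
      ext <;> simp
  refine Finset.card_le_card_of_injOn
    (fun a => U.map (LinearMap.inl K V K) ⊔ Submodule.span K {((a.out : V), (1 : K))}) ?_ ?_
  · intro a _
    simp only [Finset.coe_filter, Finset.mem_univ, true_and, Set.mem_ofPred_eq]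
    ext v
    rw [Submodule.mem_comap, key]
    simp
  · intro a _ a' _ haa
    simp only at haa
    have h3 : ((a.out : V), (1 : K)) ∈ U.map (LinearMap.inl K V K) ⊔
        Submodule.span K {((a'.out : V), (1 : K))} := by
      rw [← haa, key]
      simp
    rw [key] at h3
    simp only [one_smul] at h3
    rw [← Submodule.Quotient.eq] at h3
    simpa using h3

end Basic

section Ratio

variable [Finite K]

lemma one_lt_card : 1 < Nat.card K := Finite.one_lt_card

variable (K) in
/-- The square root of the number of elements of `K`. -/
noncomputable def sq : ℝ := Real.sqrt (Nat.card K)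

lemma sq_sq : sq K ^ 2 = Nat.card K := Real.sq_sqrt (Nat.cast_nonneg _)

lemma one_le_sq : 1 ≤ sq K := by
  rw [sq, Real.one_le_sqrt]
  exact_mod_cast (one_lt_card (K := K)).le

lemma one_lt_sq : 1 < sq K := by
  rw [sq, Real.lt_sqrt zero_le_one]
  have := one_lt_card (K := K)
  norm_num
  exact_mod_cast this

lemma sq_pos : 0 < sq K := lt_of_lt_of_le zero_lt_one one_le_sq

lemma ratio (n : ℕ) : sq K ^ n * numSub K n ≤ numSub K (n + 1) := by
  classical
  have : Finite (Submodule K (Fin n → K)) := finite_submodule
  have := Fintype.ofFinite (Submodule K (Fin n → K))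
  have h1 := sum_pow_finrank_le (K := K) (V := Fin n → K)
  have h2 := sum_pow_codim_le (K := K) (V := Fin n → K)
  rw [Module.finrank_fin_fun] at h1 h2
  have h3 : ∀ U : Submodule K (Fin n → K), 2 * sq K ^ n ≤
      (Nat.card K : ℝ) ^ finrank K U + (Nat.card K : ℝ) ^ (n - finrank K U) := by
    intro U
    have hle : finrank K U ≤ n := by
      have := Submodule.finrank_le U
      rwa [Module.finrank_fin_fun] at this
    have ha : ∀ m : ℕ, (Nat.card K : ℝ) ^ m = (sq K ^ m) ^ 2 := by
      intro m
      rw [← sq_sq, ← pow_mul, ← pow_mul, mul_comm]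
    rw [ha, ha]
    have h4 : sq K ^ n = sq K ^ finrank K U * sq K ^ (n - finrank K U) := by
      rw [← pow_add]; congr 1; omega
    rw [h4]
    nlinarith [sq_nonneg (sq K ^ finrank K U - sq K ^ (n - finrank K U))]
  have h5 : (numSub K n : ℝ) * (2 * sq K ^ n) ≤ 2 * numSub K (n + 1) := by
    calc (numSub K n : ℝ) * (2 * sq K ^ n)
        = ∑ _U : Submodule K (Fin n → K), (2 * sq K ^ n) := by
          rw [Finset.sum_const, nsmul_eq_mul, Finset.card_univ, ← Nat.card_eq_fintype_card,
            numSub]
      _ ≤ ∑ U : Submodule K (Fin n → K), ((Nat.card K : ℝ) ^ finrank K U +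
            (Nat.card K : ℝ) ^ (n - finrank K U)) := Finset.sum_le_sum fun U _ => h3 U
      _ = ((∑ U : Submodule K (Fin n → K), Nat.card K ^ finrank K U : ℕ) : ℝ) +
            ((∑ U : Submodule K (Fin n → K), Nat.card K ^ (n - finrank K U) : ℕ) : ℝ) := by
          rw [Finset.sum_add_distrib]; push_cast; rfl
      _ ≤ numSub K (n + 1) + numSub K (n + 1) := by
          apply add_le_add
          · exact_mod_cast h1
          · exact_mod_cast h2
      _ = 2 * numSub K (n + 1) := by ring
  linarith

lemma ratio_iter (n t : ℕ) (h : t ≤ n) :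
    sq K ^ (t * (n - t)) * numSub K (n - t) ≤ numSub K n := by
  induction t with
  | zero => simp
  | succ t ih =>
    have ih' := ih (by omega)
    have h1 := ratio (K := K) (n - (t + 1))
    have h2 : n - (t + 1) + 1 = n - t := by omega
    rw [h2] at h1
    have h3 : (t + 1) * (n - (t + 1)) = t * (n - (t + 1)) + (n - (t + 1)) := by ring
    have h4 : sq K ^ (t * (n - (t + 1))) ≤ sq K ^ (t * (n - t)) :=
      pow_le_pow_right₀ one_le_sq (Nat.mul_le_mul_left _ (by omega))
    calc sq K ^ ((t + 1) * (n - (t + 1))) * numSub K (n - (t + 1))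
        = sq K ^ (t * (n - (t + 1))) * (sq K ^ (n - (t + 1)) * numSub K (n - (t + 1))) := by
          rw [h3, pow_add]; ring
      _ ≤ sq K ^ (t * (n - t)) * numSub K (n - t) := by
          apply mul_le_mul h4 h1 (mul_nonneg (pow_nonneg sq_pos.le _) (Nat.cast_nonneg _))
          exact pow_nonneg sq_pos.le _
      _ ≤ numSub K n := ih'

end Ratio

section Cover

variable [Finite K] {V : Type*} [AddCommGroup V] [Module K V] [Module.Finite K V]

/-- If every member of a family of subspaces contains the span of a linearly independent tuple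
from a given finite set of `t`-tuples, the family is small. -/
lemma card_le_of_cover {t : ℕ} {ι : Type*} [Finite ι] (w : ι → Submodule K V)
    (hw : ∀ i, finrank K (w i) = t) (P : Submodule K V → Prop)
    (hP : ∀ U, P U → ∃ i, w i ≤ U) :
    Nat.card {U : Submodule K V // P U} ≤ Nat.card ι * numSub K (finrank K V - t) := by
  classical
  have : Finite (Submodule K V) := finite_submodule
  have := Fintype.ofFinite (Submodule K V)
  have := Fintype.ofFinite ι
  have h1 : (Finset.univ.filter fun U : Submodule K V => P U) ⊆
      Finset.univ.biUnion fun i : ι => Finset.univ.filter fun U : Submodule K V => w i ≤ U := by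
    intro U hU
    simp only [Finset.mem_filter, Finset.mem_univ, true_and, Finset.mem_biUnion] at hU ⊢
    exact hP U hU
  have h2 : Nat.card {U : Submodule K V // P U} =
      (Finset.univ.filter fun U : Submodule K V => P U).card := by
    rw [Nat.card_eq_fintype_card, Fintype.card_subtype]
  rw [h2]
  refine (Finset.card_le_card h1).trans (Finset.card_biUnion_le.trans ?_)
  have h3 : ∀ i : ι, (Finset.univ.filter fun U : Submodule K V => w i ≤ U).card =
      numSub K (finrank K V - t) := by
    intro i
    rw [← hw i, ← card_above (w i), Nat.card_eq_fintype_card, Fintype.card_subtype]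
  rw [Finset.sum_congr rfl fun i _ => h3 i, Finset.sum_const, smul_eq_mul, Finset.card_univ,
    Nat.card_eq_fintype_card]

end Cover

end Pool.Agent.Lib.MP_e84969_co
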