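import Mathlib

/-!
# The group of semimonomial transformations of `K^ι` and its action on subspaces
-/

set_option linter.unusedSectionVars false

namespace Pool.Agent.Lib.MP_e84969_co

/-- Semimonomial transformations: permute coordinates, scale them, apply a field automorphism. -/
@[ext]
structure SM (K : Type*) [Field K] (ι : Type*) where
  perm : Equiv.Perm ι
  diag : ι → Kˣ
  aut : RingAut K

namespace SM

variable {K : Type*} [Field K] {ι : Type*}

instance : Mul (SM K ι) :=
  ⟨fun g h => ⟨g.perm * h.perm, fun i => g.diag i *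
    Units.map (g.aut : K →* K) (h.diag (g.perm.symm i)), g.aut * h.aut⟩⟩

instance : One (SM K ι) := ⟨⟨1, fun _ => 1, 1⟩⟩

instance : Inv (SM K ι) :=
  ⟨fun g => ⟨g.perm⁻¹, fun i => Units.map ((g.aut⁻¹ : RingAut K) : K →* K)
    (g.diag (g.perm i))⁻¹, g.aut⁻¹⟩⟩

lemma mul_perm (g h : SM K ι) : (g * h).perm = g.perm * h.perm := rfl

lemma mul_aut (g h : SM K ι) : (g * h).aut = g.aut * h.aut := rfl

lemma mul_diag (g h : SM K ι) (i : ι) : (g * h).diag i = g.diag i *
    Units.map (g.aut : K →* K) (h.diag (g.perm.symm i)) := rfl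

lemma one_perm : (1 : SM K ι).perm = 1 := rfl

lemma one_aut : (1 : SM K ι).aut = 1 := rfl

lemma one_diag (i : ι) : (1 : SM K ι).diag i = 1 := rfl

lemma inv_perm (g : SM K ι) : (g⁻¹).perm = g.perm⁻¹ := rfl

lemma inv_aut (g : SM K ι) : (g⁻¹).aut = g.aut⁻¹ := rfl

lemma inv_diag (g : SM K ι) (i : ι) : (g⁻¹).diag i =
    Units.map ((g.aut⁻¹ : RingAut K) : K →* K) (g.diag (g.perm i))⁻¹ := rfl

instance : Group (SM K ι) :=
  Group.ofLeftAxioms
    (by
      intro a b c
      ext i
      · simp only [mul_perm, mul_assoc]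
      · simp only [mul_diag, mul_aut, mul_perm, Units.val_mul, Units.coe_map, map_mul,
          MonoidHom.coe_coe, mul_assoc]
        rfl
      · simp only [mul_aut, mul_assoc])
    (by
      intro a
      ext i
      · simp only [mul_perm, one_perm, one_mul]
      · simp only [mul_diag, one_diag, one_aut, one_perm, one_mul, Units.coe_map,
          MonoidHom.coe_coe]
        rfl
      · simp only [mul_aut, one_aut, one_mul])
    (by
      intro a
      ext i
      · simp only [mul_perm, inv_perm, one_perm, inv_mul_cancel]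
      · simp only [mul_diag, inv_diag, inv_aut, inv_perm, one_diag]
        have h : (Equiv.symm a.perm⁻¹) i = a.perm i := rfl
        rw [h, ← map_mul, inv_mul_cancel, map_one]
      · simp only [mul_aut, inv_aut, one_aut, inv_mul_cancel])

/-- The action on vectors. -/
def act (g : SM K ι) (v : ι → K) : ι → K := fun i => g.diag i * g.aut (v (g.perm.symm i))

lemma act_apply (g : SM K ι) (v : ι → K) (i : ι) :
    act g v i = g.diag i * g.aut (v (g.perm.symm i)) := rfl

lemma act_mul (g h : SM K ι) (v : ι → K) : act (g * h) v = act g (act h v) := by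
  ext i
  simp only [act_apply, mul_diag, mul_aut, mul_perm, Units.val_mul, Units.coe_map, map_mul,
    MonoidHom.coe_coe, mul_assoc]
  rfl

lemma act_one (v : ι → K) : act (1 : SM K ι) v = v := by
  ext i
  simp only [act_apply, one_diag, one_aut, one_perm, Units.val_one, one_mul]
  rfl

lemma act_add (g : SM K ι) (v w : ι → K) : act g (v + w) = act g v + act g w := by
  ext i
  simp only [act_apply, Pi.add_apply, map_add, mul_add]

lemma act_smul (g : SM K ι) (c : K) (v : ι → K) : act g (c • v) = g.aut c • act g v := by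
  ext i
  simp only [act_apply, Pi.smul_apply, smul_eq_mul, map_mul]
  ring

lemma act_zero (g : SM K ι) : act g 0 = 0 := by
  ext i
  simp only [act_apply, Pi.zero_apply, map_zero, mul_zero]

lemma act_sum (g : SM K ι) {α : Type*} (s : Finset α) (f : α → ι → K) :
    act g (∑ a ∈ s, f a) = ∑ a ∈ s, act g (f a) := by
  classical
  induction s using Finset.induction_on with
  | empty => simp [act_zero]
  | insert a s ha ih => rw [Finset.sum_insert ha, Finset.sum_insert ha, act_add, ih]

lemma act_inv_act (g : SM K ι) (v : ι → K) : act g⁻¹ (act g v) = v := by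
  rw [← act_mul, inv_mul_cancel, act_one]

lemma act_act_inv (g : SM K ι) (v : ι → K) : act g (act g⁻¹ v) = v := by
  rw [← act_mul, mul_inv_cancel, act_one]

/-- The action on subspaces. -/
def actSub (g : SM K ι) (U : Submodule K (ι → K)) : Submodule K (ι → K) where
  carrier := {v | ∃ u ∈ U, act g u = v}
  add_mem' := by
    rintro _ _ ⟨u, hu, rfl⟩ ⟨w, hw, rfl⟩
    exact ⟨u + w, U.add_mem hu hw, act_add g u w⟩
  zero_mem' := ⟨0, U.zero_mem, act_zero g⟩
  smul_mem' := by
    rintro c _ ⟨u, hu, rfl⟩
    refine ⟨g.aut.symm c • u, U.smul_mem _ hu, ?_⟩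
    rw [act_smul]
    congr 1
    exact g.aut.apply_symm_apply c

instance : MulAction (SM K ι) (Submodule K (ι → K)) where
  smul := actSub
  one_smul U := by
    ext v
    constructor
    · rintro ⟨u, hu, rfl⟩
      rwa [act_one]
    · intro hv
      exact ⟨v, hv, act_one v⟩
  mul_smul g h U := by
    ext v
    constructor
    · rintro ⟨u, hu, rfl⟩
      exact ⟨act h u, ⟨u, hu, rfl⟩, (act_mul g h u).symm⟩
    · rintro ⟨_, ⟨u, hu, rfl⟩, rfl⟩
      exact ⟨u, hu, act_mul g h u⟩

lemma mem_smul {g : SM K ι} {U : Submodule K (ι → K)} {v : ι → K} :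
    v ∈ g • U ↔ ∃ u ∈ U, act g u = v := Iff.rfl

lemma act_mem_smul {g : SM K ι} {U : Submodule K (ι → K)} {u : ι → K} (hu : u ∈ U) :
    act g u ∈ g • U := ⟨u, hu, rfl⟩

/-- The scalar transformations. -/
def scalar (K : Type*) [Field K] (ι : Type*) (c : Kˣ) : SM K ι := ⟨1, fun _ => c, 1⟩

lemma act_scalar (c : Kˣ) (v : ι → K) : act (scalar K ι c) v = (c : K) • v := by
  ext i
  rfl

lemma scalar_smul (c : Kˣ) (U : Submodule K (ι → K)) : scalar K ι c • U = U := by
  ext v
  constructor
  · rintro ⟨u, hu, rfl⟩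
    rw [act_scalar]
    exact U.smul_mem _ hu
  · intro hv
    refine ⟨((c⁻¹ : Kˣ) : K) • v, U.smul_mem _ hv, ?_⟩
    rw [act_scalar, smul_smul, Units.mul_inv, one_smul]

lemma scalar_injective [Nonempty ι] : Function.Injective (scalar K ι) := by
  intro c d h
  obtain ⟨i⟩ := ‹Nonempty ι›
  exact congrFun (congrArg SM.diag h) i

/-- Equivalence with the product type. -/
def equivProd : SM K ι ≃ Equiv.Perm ι × (ι → Kˣ) × RingAut K where
  toFun g := (g.perm, g.diag, g.aut)
  invFun x := ⟨x.1, x.2.1, x.2.2⟩
  left_inv _ := rfl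
  right_inv _ := rfl

lemma card_SM (n : ℕ) : Nat.card (SM K (Fin n)) =
    n.factorial * ((Nat.card Kˣ) ^ n * Nat.card (RingAut K)) := by
  rw [Nat.card_congr equivProd, Nat.card_prod, Nat.card_prod, Nat.card_perm, Nat.card_fun]
  simp

lemma finite_ringAut [Finite K] : Finite (RingAut K) :=
  Finite.of_injective (fun σ : RingAut K => (σ : K → K)) (fun _ _ h => DFunLike.coe_injective h)

instance [Finite K] [Finite ι] : Finite (SM K ι) := by
  have := finite_ringAut (K := K)
  exact Finite.of_equiv _ equivProd.symm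

end SM

end Pool.Agent.Lib.MP_e84969_co
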