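import Pool.Agent.Lib.MP_e84969_co.Count
import Pool.Agent.Lib.MP_e84969_co.Gp

/-!
# Counting the subspaces fixed by a semimonomial transformation
-/

set_option linter.unusedSectionVars false

namespace Pool.Agent.Lib.MP_e84969_co

open Module SM

variable {K : Type*} [Field K] {ι : Type*}

/-- The subspace of vectors supported on `Q`. -/
def coordSub (K : Type*) [Field K] {ι : Type*} (Q : Set ι) : Submodule K (ι → K) where
  carrier := {v | ∀ c, v c ≠ 0 → c ∈ Q}
  add_mem' := by
    intro v w hv hw c hc
    by_contra hcQ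
    have h1 : v c = 0 := by by_contra h; exact hcQ (hv c h)
    have h2 : w c = 0 := by by_contra h; exact hcQ (hw c h)
    exact hc (by simp [h1, h2])
  zero_mem' := by intro c hc; exact absurd rfl hc
  smul_mem' := by
    intro a v hv c hc
    apply hv
    intro h
    exact hc (by simp [h])

lemma mem_coordSub {Q : Set ι} {v : ι → K} : v ∈ coordSub K Q ↔ ∀ c, v c ≠ 0 → c ∈ Q := Iff.rfl

lemma coordSub_mono {Q Q' : Set ι} (h : Q ⊆ Q') : coordSub K Q ≤ coordSub K Q' :=
  fun _ hv c hc => h (hv c hc)

/-- `κ` vectors `x a`, with the `x a` and `g (x a)` supported on disjoint pairs of coordinates and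
`x a`, `g (x a)` linearly independent. -/
structure Config (g : SM K ι) (κ : ℕ) where
  P : Fin κ → Finset ι
  x : Fin κ → (ι → K)
  supp_x : ∀ a c, x a c ≠ 0 → c ∈ P a
  supp_y : ∀ a c, act g (x a) c ≠ 0 → c ∈ P a
  disj : ∀ a b, a ≠ b → Disjoint (P a) (P b)
  card : ∀ a, (P a).card ≤ 2
  indep : ∀ a (r s : K), r • x a = s • act g (x a) → r = 0 ∧ s = 0

namespace Config

variable {g : SM K ι} {κ : ℕ} (C : Config g κ)

/-- The coordinates used by the vectors with index in `I`. -/
def Q (I : Finset (Fin κ)) : Set ι := {c | ∃ a ∈ I, c ∈ C.P a}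

lemma Q_mono {I I' : Finset (Fin κ)} (h : I ⊆ I') : C.Q I ⊆ C.Q I' := by
  rintro c ⟨a, ha, hc⟩
  exact ⟨a, h ha, hc⟩

lemma x_mem {I : Finset (Fin κ)} {a : Fin κ} (ha : a ∈ I) : C.x a ∈ coordSub K (C.Q I) :=
  fun c hc => ⟨a, ha, C.supp_x a c hc⟩

lemma y_mem {I : Finset (Fin κ)} {a : Fin κ} (ha : a ∈ I) : act g (C.x a) ∈ coordSub K (C.Q I) :=
  fun c hc => ⟨a, ha, C.supp_y a c hc⟩

lemma x_ne (a : Fin κ) : C.x a ≠ 0 := by
  intro h
  have := (C.indep a 1 0 (by rw [h]; simp)).1
  exact one_ne_zero this

/-- The span of the `x a` with `a ∈ I`. -/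
def S (I : Finset (Fin κ)) : Submodule K (ι → K) := Submodule.span K (C.x '' I)

lemma x_zero_of {a b : Fin κ} (h : a ≠ b) {c : ι} (hc : c ∈ C.P b) : C.x a c = 0 := by
  by_contra hne
  exact (Finset.disjoint_left.1 (C.disj a b h)) (C.supp_x a c hne) hc

lemma y_zero_of {a b : Fin κ} (h : a ≠ b) {c : ι} (hc : c ∈ C.P b) : act g (C.x a) c = 0 := by
  by_contra hne
  exact (Finset.disjoint_left.1 (C.disj a b h)) (C.supp_y a c hne) hc

lemma linInd : LinearIndependent K C.x := by
  rw [Fintype.linearIndependent_iff]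
  intro r hr a
  obtain ⟨c, hc⟩ := Function.ne_iff.1 (C.x_ne a)
  have h1 := congrFun hr c
  rw [Finset.sum_apply, Finset.sum_eq_single a] at h1
  · simp only [Pi.smul_apply, smul_eq_mul, Pi.zero_apply, mul_eq_zero] at h1
    rcases h1 with h1 | h1
    · exact h1
    · exact absurd h1 hc
  · intro b _ hba
    rw [Pi.smul_apply, C.x_zero_of hba (C.supp_x a c hc), smul_zero]
  · intro h; exact absurd (Finset.mem_univ a) h

lemma finrank_S (I : Finset (Fin κ)) : finrank K (C.S I) = I.card := by
  classical
  have h : LinearIndependent K (fun a : I => C.x a) := C.linInd.comp _ Subtype.val_injective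
  have h2 : C.S I = Submodule.span K (Set.range fun a : I => C.x a) := by
    rw [S]
    congr 1
    ext v
    simp
  rw [h2, finrank_span_eq_card h, Fintype.card_coe]

lemma mem_S {I : Finset (Fin κ)} {v : ι → K} (hv : v ∈ C.S I) :
    ∃ r : Fin κ → K, v = ∑ a ∈ I, r a • C.x a := by
  classical
  rw [S, Submodule.mem_span_image_finset_iff_exists_fun] at hv
  obtain ⟨r, hr⟩ := hv
  refine ⟨fun a => if h : a ∈ I then r ⟨a, h⟩ else 0, ?_⟩
  rw [← hr, ← Finset.sum_coe_sort I
    (fun a => (if h : a ∈ I then r ⟨a, h⟩ else 0) • C.x a)]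
  refine Finset.sum_congr rfl fun a _ => ?_
  simp

/-- A fixed subspace avoiding the coordinates in `Q I` can be recovered from its sum with `S I`. -/
lemma recover {U : Submodule K (ι → K)} (hU : g • U = U) {I : Finset (Fin κ)}
    (hI : U ⊓ coordSub K (C.Q I) = ⊥) : U = (U ⊔ C.S I) ⊓ g • (U ⊔ C.S I) := by
  classical
  apply le_antisymm
  · apply le_inf le_sup_left
    intro u hu
    rw [← hU] at hu
    obtain ⟨u', hu', rfl⟩ := hu
    exact act_mem_smul (Submodule.mem_sup_left hu')
  · rintro v ⟨hv1, hv2⟩
    obtain ⟨u, hu, s, hs, rfl⟩ := Submodule.mem_sup.1 hv1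
    obtain ⟨w, hw, hwv⟩ := hv2
    obtain ⟨u', hu', s', hs', rfl⟩ := Submodule.mem_sup.1 hw
    obtain ⟨r, rfl⟩ := C.mem_S hs
    obtain ⟨r', rfl⟩ := C.mem_S hs'
    have hgu : act g u' ∈ U := by
      rw [← hU]; exact act_mem_smul hu'
    rw [act_add, act_sum] at hwv
    have hwv' : act g u' + ∑ a ∈ I, g.aut (r' a) • act g (C.x a) =
        u + ∑ a ∈ I, r a • C.x a := by
      rw [← hwv]
      congr 1
      exact Finset.sum_congr rfl fun a _ => (act_smul _ _ _).symm
    have h1 : act g u' - u = ∑ a ∈ I, r a • C.x a - ∑ a ∈ I, g.aut (r' a) • act g (C.x a) := by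
      rw [sub_eq_sub_iff_add_eq_add, hwv']
      exact add_comm _ _
    have h2 : act g u' - u ∈ U ⊓ coordSub K (C.Q I) := by
      refine ⟨U.sub_mem hgu hu, ?_⟩
      rw [h1]
      refine Submodule.sub_mem _ (Submodule.sum_mem _ fun a ha => ?_)
        (Submodule.sum_mem _ fun a ha => ?_)
      · exact Submodule.smul_mem _ _ (C.x_mem ha)
      · exact Submodule.smul_mem _ _ (C.y_mem ha)
    rw [hI, Submodule.mem_bot] at h2
    rw [h2] at h1
    have h3 : ∀ a ∈ I, r a = 0 := by
      intro a ha
      refine (C.indep a (r a) (g.aut (r' a)) ?_).1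
      ext c
      by_cases hc : c ∈ C.P a
      · have h4 := congrFun h1 c
        rw [Pi.sub_apply, Finset.sum_apply, Finset.sum_apply, Finset.sum_eq_single a,
          Finset.sum_eq_single a, Pi.zero_apply] at h4
        · exact sub_eq_zero.1 h4.symm
        · intro b _ hba
          rw [Pi.smul_apply, C.y_zero_of hba hc, smul_zero]
        · intro h; exact absurd ha h
        · intro b _ hba
          rw [Pi.smul_apply, C.x_zero_of hba hc, smul_zero]
        · intro h; exact absurd ha h
      · have h5 : C.x a c = 0 := by by_contra h; exact hc (C.supp_x a c h)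
        have h6 : act g (C.x a) c = 0 := by by_contra h; exact hc (C.supp_y a c h)
        simp [h5, h6]
    rw [Finset.sum_eq_zero fun a ha => by rw [h3 a ha, zero_smul], add_zero]
    exact hu

/-- Dichotomy for subspaces. -/
lemma dichotomy {t : ℕ} (hκ : κ = 2 * t - 1) (U : Submodule K (ι → K)) :
    (∃ I : Finset (Fin κ), I.card = t ∧ U ⊓ coordSub K (C.Q I) = ⊥) ∨
    ∃ w : Fin t → coordSub K (C.Q Finset.univ), LinearIndependent K (fun j => (w j : ι → K)) ∧
      Submodule.span K (Set.range fun j => (w j : ι → K)) ≤ U := by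
  classical
  -- a maximal set of indices with trivial intersection
  have hne : (Finset.univ.filter fun I : Finset (Fin κ) =>
      U ⊓ coordSub K (C.Q I) = ⊥).Nonempty := by
    refine ⟨∅, ?_⟩
    simp only [Finset.mem_filter, Finset.mem_univ, true_and]
    rw [eq_bot_iff]
    rintro v ⟨-, hv⟩
    rw [Submodule.mem_bot]
    ext c
    by_contra hc
    obtain ⟨a, ha, -⟩ := hv c hc
    exact absurd ha (Finset.notMem_empty a)
  obtain ⟨I, hI, hmax⟩ := Finset.exists_max_image _ Finset.card hne
  simp only [Finset.mem_filter, Finset.mem_univ, true_and] at hI hmax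
  by_cases hIt : t ≤ I.card
  · obtain ⟨I', hI', hcard⟩ := Finset.exists_subset_card_eq hIt
    refine Or.inl ⟨I', hcard, ?_⟩
    rw [eq_bot_iff, ← hI]
    exact inf_le_inf_left _ (coordSub_mono (C.Q_mono hI'))
  · right
    have hcompl : t ≤ (Iᶜ).card := by
      rw [Finset.card_compl, Fintype.card_fin]
      omega
    have hex : ∀ h : Fin κ, h ∉ I → ∃ w : ι → K, w ∈ U ∧ w ∈ coordSub K (C.Q (insert h I)) ∧
        ∃ c ∈ C.P h, w c ≠ 0 := by
      intro h hh
      have hbot : U ⊓ coordSub K (C.Q (insert h I)) ≠ ⊥ := by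
        intro hb
        have := hmax _ hb
        rw [Finset.card_insert_of_notMem hh] at this
        omega
      obtain ⟨w, hw, hw0⟩ := (Submodule.ne_bot_iff _).1 hbot
      refine ⟨w, hw.1, hw.2, ?_⟩
      by_contra hcon
      push Not at hcon
      apply hw0
      have : w ∈ U ⊓ coordSub K (C.Q I) := by
        refine ⟨hw.1, fun c hc => ?_⟩
        obtain ⟨a, ha, hca⟩ := hw.2 c hc
        rcases Finset.mem_insert.1 ha with rfl | ha
        · exact absurd (hcon c hca) hc
        · exact ⟨a, ha, hca⟩
      rw [hI] at this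
      exact (Submodule.mem_bot K).1 this
    choose! w hwU hwQ hex' using hex
    choose c hcP hwc using hex'
    obtain ⟨J, hJ, hJcard⟩ := Finset.exists_subset_card_eq hcompl
    let e : Fin t ≃ J := (Fintype.equivFinOfCardEq (by rw [Fintype.card_coe, hJcard])).symm
    have heI : ∀ j : Fin t, ((e j : J) : Fin κ) ∉ I := fun j =>
      Finset.mem_compl.1 (hJ (e j).2)
    refine ⟨fun j => ⟨w (e j), coordSub_mono (C.Q_mono (Finset.subset_univ _))
      (hwQ _ (heI j))⟩, ?_, ?_⟩
    · rw [Fintype.linearIndependent_iff]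
      intro r hr j
      have h1 := congrFun hr (c (e j) (heI j))
      rw [Finset.sum_apply, Finset.sum_eq_single j] at h1
      · simp only [Pi.smul_apply, smul_eq_mul, Pi.zero_apply, mul_eq_zero] at h1
        rcases h1 with h1 | h1
        · exact h1
        · exact absurd h1 (hwc _ (heI j))
      · intro j' _ hj'
        have hzero : w (e j') (c (e j) (heI j)) = 0 := by
          by_contra hne'
          obtain ⟨a, ha, hca⟩ := hwQ _ (heI j') _ hne'
          have hne2 : a ≠ e j := by
            rintro rfl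
            rcases Finset.mem_insert.1 ha with h | h
            · exact hj' (e.injective (Subtype.ext h)).symm
            · exact heI j h
          exact (Finset.disjoint_left.1 (C.disj a (e j) hne2)) hca (hcP _ (heI j))
        simp [hzero]
      · intro h; exact absurd (Finset.mem_univ j) h
    · rw [Submodule.span_le]
      rintro _ ⟨j, rfl⟩
      exact hwU _ (heI j)

end Config

section Bound

variable [Finite K]

lemma card_coordSub (Q : Finset ι) [Finite ι] :
    Nat.card (coordSub K (Q : Set ι)) ≤ Nat.card K ^ Q.card := by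
  classical
  have h : Nat.card (Q → K) = Nat.card K ^ Q.card := by
    rw [Nat.card_fun, Nat.card_eq_fintype_card (α := Q), Fintype.card_coe]
  rw [← h]
  apply Nat.card_le_card_of_injective (fun v : coordSub K (Q : Set ι) => fun c : Q =>
    (v : ι → K) c)
  intro v w hvw
  ext c
  by_cases hc : c ∈ Q
  · exact congrFun hvw ⟨c, hc⟩
  · have h1 : (v : ι → K) c = 0 := by by_contra h; exact hc (v.2 c h)
    have h2 : (w : ι → K) c = 0 := by by_contra h; exact hc (w.2 c h)
    rw [h1, h2]

lemma card_coordSub_Q {g : SM K ι} {κ : ℕ} (C : Config g κ) [Finite ι] :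
    Nat.card (coordSub K (C.Q Finset.univ)) ≤ Nat.card K ^ (2 * κ) := by
  classical
  have h1 : C.Q Finset.univ = ((Finset.univ.biUnion C.P : Finset ι) : Set ι) := by
    ext c; simp [Config.Q]
  rw [h1]
  refine (card_coordSub _).trans (Nat.pow_le_pow_right Nat.card_pos ?_)
  calc (Finset.univ.biUnion C.P).card ≤ ∑ a : Fin κ, (C.P a).card := Finset.card_biUnion_le
    _ ≤ ∑ _a : Fin κ, 2 := Finset.sum_le_sum fun a _ => C.card a
    _ = 2 * κ := by simp [mul_comm]

/-- The number of subspaces fixed by a transformation with a large configuration. -/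
lemma card_fixed_le {n : ℕ} {g : SM K (Fin n)} {κ t : ℕ} (hκ : κ = 2 * t - 1)
    (C : Config g κ) :
    Nat.card {U : Submodule K (Fin n → K) // g • U = U} ≤
      (2 ^ κ + Nat.card K ^ (2 * κ * t)) * numSub K (n - t) := by
  classical
  have := finite_submodule (K := K) (V := Fin n → K)
  have hfin := Fintype.ofFinite (Submodule K (Fin n → K))
  let A : Finset (Submodule K (Fin n → K)) := Finset.univ.filter fun U => g • U = U
  let B : Finset (Submodule K (Fin n → K)) := Finset.univ.filter fun U =>
    ∃ w : {w : Fin t → coordSub K (C.Q Finset.univ) //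
      LinearIndependent K (fun j => (w j : Fin n → K))},
      Submodule.span K (Set.range fun j => (w.1 j : Fin n → K)) ≤ U
  let D : Finset (Fin κ) → Finset (Submodule K (Fin n → K)) := fun I =>
    Finset.univ.filter fun U => g • U = U ∧ U ⊓ coordSub K (C.Q I) = ⊥
  have hA : A ⊆ B ∪ (Finset.univ.powersetCard t).biUnion D := by
    intro U hU
    have hU' : g • U = U := (Finset.mem_filter.1 hU).2
    rcases C.dichotomy hκ U with ⟨I, hI, hbot⟩ | ⟨w, hw, hwU⟩
    · apply Finset.mem_union_right
      rw [Finset.mem_biUnion]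
      exact ⟨I, Finset.mem_powersetCard.2 ⟨Finset.subset_univ _, hI⟩,
        Finset.mem_filter.2 ⟨Finset.mem_univ _, hU', hbot⟩⟩
    · apply Finset.mem_union_left
      exact Finset.mem_filter.2 ⟨Finset.mem_univ _, ⟨w, hw⟩, hwU⟩
  have hB : B.card ≤ Nat.card K ^ (2 * κ * t) * numSub K (n - t) := by
    have h1 := card_le_of_cover (K := K) (V := Fin n → K) (t := t)
      (fun w : {w : Fin t → coordSub K (C.Q Finset.univ) //
        LinearIndependent K (fun j => (w j : Fin n → K))} =>
        Submodule.span K (Set.range fun j => (w.1 j : Fin n → K)))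
      (fun w => by rw [finrank_span_eq_card w.2, Fintype.card_fin])
      (fun U => ∃ w : {w : Fin t → coordSub K (C.Q Finset.univ) //
        LinearIndependent K (fun j => (w j : Fin n → K))},
        Submodule.span K (Set.range fun j => (w.1 j : Fin n → K)) ≤ U)
      (fun U hU => hU)
    rw [Module.finrank_fin_fun] at h1
    have h2 : B.card = Nat.card {U : Submodule K (Fin n → K) //
        ∃ w : {w : Fin t → coordSub K (C.Q Finset.univ) //
        LinearIndependent K (fun j => (w j : Fin n → K))},
        Submodule.span K (Set.range fun j => (w.1 j : Fin n → K)) ≤ U} := by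
      rw [Nat.card_eq_fintype_card, Fintype.card_subtype]
    rw [h2]
    refine h1.trans (Nat.mul_le_mul_right _ ?_)
    refine (Nat.card_le_card_of_injective Subtype.val Subtype.val_injective).trans ?_
    rw [Nat.card_fun, Nat.card_eq_fintype_card (α := Fin t), Fintype.card_fin, pow_mul]
    exact Nat.pow_le_pow_left (card_coordSub_Q C) _
  have hD : ∀ I ∈ Finset.univ.powersetCard t, (D I).card ≤ numSub K (n - t) := by
    intro I hI
    have hIc : I.card = t := (Finset.mem_powersetCard.1 hI).2
    have h1 : Nat.card {U : Submodule K (Fin n → K) // C.S I ≤ U} = numSub K (n - t) := by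
      rw [card_above, C.finrank_S, hIc, Module.finrank_fin_fun]
    rw [← h1, Nat.card_eq_fintype_card, Fintype.card_subtype]
    refine Finset.card_le_card_of_injOn (fun U => U ⊔ C.S I) ?_ ?_
    · intro U _
      simp only [Finset.coe_filter, Finset.mem_univ, true_and, Set.mem_ofPred_eq]
      exact le_sup_right
    · intro U hU U' hU' h
      have hU1 := (Finset.mem_filter.1 (Finset.mem_coe.1 hU)).2
      have hU2 := (Finset.mem_filter.1 (Finset.mem_coe.1 hU')).2
      simp only at h
      rw [C.recover hU1.1 hU1.2, C.recover hU2.1 hU2.2, h]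
  have hcard : Nat.card {U : Submodule K (Fin n → K) // g • U = U} = A.card := by
    rw [Nat.card_eq_fintype_card, Fintype.card_subtype]
  rw [hcard]
  calc A.card ≤ (B ∪ (Finset.univ.powersetCard t).biUnion D).card := Finset.card_le_card hA
    _ ≤ B.card + ((Finset.univ.powersetCard t).biUnion D).card := Finset.card_union_le _ _
    _ ≤ Nat.card K ^ (2 * κ * t) * numSub K (n - t) +
        ∑ I ∈ Finset.univ.powersetCard t, (D I).card :=
      add_le_add hB Finset.card_biUnion_le
    _ ≤ Nat.card K ^ (2 * κ * t) * numSub K (n - t) +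
        ∑ _I ∈ (Finset.univ : Finset (Fin κ)).powersetCard t, numSub K (n - t) :=
      add_le_add le_rfl (Finset.sum_le_sum hD)
    _ = Nat.card K ^ (2 * κ * t) * numSub K (n - t) + κ.choose t * numSub K (n - t) := by
      rw [Finset.sum_const, Finset.card_powersetCard, Finset.card_univ, Fintype.card_fin,
        smul_eq_mul]
    _ ≤ Nat.card K ^ (2 * κ * t) * numSub K (n - t) + 2 ^ κ * numSub K (n - t) :=
      add_le_add le_rfl (Nat.mul_le_mul_right _ (Nat.choose_le_two_pow _ _))
    _ = (2 ^ κ + Nat.card K ^ (2 * κ * t)) * numSub K (n - t) := by ring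

end Bound

end Pool.Agent.Lib.MP_e84969_co
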