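import Mathlib

/-!
# Rigidity of matrices rich in patterns

If two matrices have the same dependent sets of columns on all sets of rows and one of them
contains every pattern on every three rows, then they differ by a field automorphism and
scaling of rows and columns.
-/

set_option linter.unusedSectionVars false

namespace Pool.Agent.Lib.MP_e84969_co

variable {K : Type*} [Field K] {B C : Type*} [Fintype C]

/-- The columns with index in `C₀` are dependent when restricted to the rows in `R`. -/
def Dep (D : B → C → K) (R : Set B) (C₀ : Set C) : Prop :=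
  ∃ t : C → K, t ≠ 0 ∧ (∀ c ∉ C₀, t c = 0) ∧ ∀ i ∈ R, ∑ c, t c * D i c = 0

lemma sum_two [DecidableEq C] {c e : C} (hce : c ≠ e) {t : C → K}
    (ht : ∀ x ∉ ({c, e} : Set C), t x = 0) (f : C → K) :
    ∑ x, t x * f x = t c * f c + t e * f e := by
  rw [← Finset.sum_pair (f := fun x => t x * f x) hce]
  symm
  apply Finset.sum_subset (Finset.subset_univ _)
  intro x _ hx
  rw [ht x (by simpa using hx), zero_mul]

lemma sum_three [DecidableEq C] {c e f : C} (hce : c ≠ e) (hcf : c ≠ f) (hef : e ≠ f)
    {t : C → K} (ht : ∀ x ∉ ({c, e, f} : Set C), t x = 0) (F : C → K) :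
    ∑ x, t x * F x = t c * F c + t e * F e + t f * F f := by
  have h1 : ∑ x ∈ ({c, e, f} : Finset C), t x * F x = t c * F c + (t e * F e + t f * F f) := by
    rw [Finset.sum_insert (by simp [hce, hcf]), Finset.sum_pair hef]
  rw [add_assoc, ← h1]
  symm
  apply Finset.sum_subset (Finset.subset_univ _)
  intro x _ hx
  rw [ht x (by simpa using hx), zero_mul]

lemma dep_one [DecidableEq C] {D : B → C → K} {i : B} {c : C} :
    Dep D {i} {c} ↔ D i c = 0 := by
  constructor
  · rintro ⟨t, ht, hs, h⟩
    have h1 := h i rfl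
    rw [Finset.sum_eq_single c] at h1
    · rcases mul_eq_zero.1 h1 with h2 | h2
      · exfalso
        apply ht
        funext x
        by_cases hx : x = c
        · rw [hx]; exact h2
        · exact hs x hx
      · exact h2
    · intro x _ hx
      rw [hs x hx, zero_mul]
    · intro h; exact absurd (Finset.mem_univ c) h
  · intro h
    refine ⟨Pi.single c 1, ?_, ?_, ?_⟩
    · intro h0
      have := congrFun h0 c
      simp at this
    · intro x hx
      rw [Pi.single_eq_of_ne hx]
    · rintro _ rfl
      rw [Finset.sum_eq_single c]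
      · rw [h, mul_zero]
      · intro x _ hx
        rw [Pi.single_eq_of_ne hx, zero_mul]
      · intro h; exact absurd (Finset.mem_univ c) h

/-- Two by two minors. -/
lemma two_minor [DecidableEq C] {D D' : B → C → K}
    (h : ∀ R C₀, Dep D R C₀ → Dep D' R C₀) {i j : B} {c e : C} (hce : c ≠ e)
    (hne : D j e ≠ 0) (hdet : D i c * D j e = D i e * D j c) :
    D' i c * D' j e = D' i e * D' j c := by
  have h1 : Dep D {i, j} {c, e} := by
    refine ⟨Pi.single c (D j e) - Pi.single e (D j c), ?_, ?_, ?_⟩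
    · intro h0
      have := congrFun h0 c
      simp [hce] at this
      exact hne this
    · intro x hx
      have h2 : x ≠ c := fun h => hx (by simp [h])
      have h3 : x ≠ e := fun h => hx (by simp [h])
      simp [h2, h3]
    · have ht : ∀ x ∉ ({c, e} : Set C),
          (Pi.single c (D j e) - Pi.single e (D j c) : C → K) x = 0 := by
        intro x hx
        have h2 : x ≠ c := fun h => hx (by simp [h])
        have h3 : x ≠ e := fun h => hx (by simp [h])
        simp [h2, h3]
      have hec : e ≠ c := fun h => hce h.symm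
      intro k hk
      rw [sum_two hce ht]
      rcases hk with rfl | rfl
      · simp [hce, hec]
        linear_combination hdet
      · simp [hce, hec]
        ring
  obtain ⟨t, ht, hs, hr⟩ := h _ _ h1
  have e1 := hr i (by simp)
  have e2 := hr j (by simp)
  rw [sum_two hce hs] at e1 e2
  have hnz : t c ≠ 0 ∨ t e ≠ 0 := by
    by_contra hcon
    push Not at hcon
    apply ht
    funext x
    by_cases hx : x ∈ ({c, e} : Set C)
    · rcases hx with rfl | rfl
      · exact hcon.1
      · exact hcon.2
    · exact hs x hx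
  rcases hnz with hnz | hnz
  · apply mul_left_cancel₀ hnz
    linear_combination D' j e * e1 - D' i e * e2
  · apply mul_left_cancel₀ hnz
    linear_combination (-(D' j c)) * e1 + D' i c * e2

/-- Three columns with sum relation. -/
lemma three_rel [DecidableEq C] {D D' : B → C → K}
    (h : ∀ R C₀, Dep D R C₀ → Dep D' R C₀) {i j l : B} {c e f : C} (hce : c ≠ e)
    (hcf : c ≠ f) (hef : e ≠ f) (hi : D i c + D i e = D i f) (hj : D j c + D j e = D j f)
    (hl : D l c + D l e = D l f) :
    ∃ a b d : K, (a ≠ 0 ∨ b ≠ 0 ∨ d ≠ 0) ∧ a * D' i c + b * D' i e + d * D' i f = 0 ∧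
      a * D' j c + b * D' j e + d * D' j f = 0 ∧ a * D' l c + b * D' l e + d * D' l f = 0 := by
  have ht : ∀ x ∉ ({c, e, f} : Set C),
      (Pi.single c (1 : K) + Pi.single e 1 - Pi.single f 1 : C → K) x = 0 := by
    intro x hx
    have h2 : x ≠ c := fun h => hx (by simp [h])
    have h3 : x ≠ e := fun h => hx (by simp [h])
    have h4 : x ≠ f := fun h => hx (by simp [h])
    simp [h2, h3, h4]
  have h1 : Dep D {i, j, l} {c, e, f} := by
    refine ⟨Pi.single c (1 : K) + Pi.single e 1 - Pi.single f 1, ?_, ht, ?_⟩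
    · intro h0
      have := congrFun h0 c
      simp [hce, hcf] at this
    · have hec : e ≠ c := fun h => hce h.symm
      have hfc : f ≠ c := fun h => hcf h.symm
      have hfe : f ≠ e := fun h => hef h.symm
      intro k hk
      rw [sum_three hce hcf hef ht]
      have hk' : D k c + D k e = D k f := by
        rcases hk with rfl | rfl | rfl <;> assumption
      simp [hce, hcf, hef, hec, hfc, hfe]
      linear_combination hk'
  obtain ⟨t, ht0, hs, hr⟩ := h _ _ h1
  refine ⟨t c, t e, t f, ?_, ?_, ?_, ?_⟩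
  · by_contra hcon
    push Not at hcon
    apply ht0
    funext x
    by_cases hx : x ∈ ({c, e, f} : Set C)
    · rcases hx with rfl | rfl | rfl
      · exact hcon.1
      · exact hcon.2.1
      · exact hcon.2.2
    · exact hs x hx
  · have := hr i (by simp)
    rwa [sum_three hce hcf hef hs] at this
  · have := hr j (by simp)
    rwa [sum_three hce hcf hef hs] at this
  · have := hr l (by simp)
    rwa [sum_three hce hcf hef hs] at this

/-- Every pattern occurs on every three rows. -/
def Rich (D : B → C → K) : Prop :=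
  ∀ i j l : B, i ≠ j → i ≠ l → j ≠ l → ∀ a b c : K, ∃ x : C, D i x = a ∧ D j x = b ∧ D l x = c

/-- The rigidity theorem. -/
theorem rigid [Finite K] [Fintype B] (hB : 3 ≤ Fintype.card B) {D D' : B → C → K}
    (hD : Rich D) (h : ∀ R C₀, Dep D R C₀ ↔ Dep D' R C₀) :
    ∃ (σ : RingAut K) (ρ : B → Kˣ) (γ : C → Kˣ), ∀ i c, D' i c = ρ i * γ c * σ (D i c) := by
  classical
  have h' : ∀ R C₀, Dep D R C₀ → Dep D' R C₀ := fun R C₀ => (h R C₀).1
  have hz : ∀ i c, D i c = 0 ↔ D' i c = 0 := fun i c => by
    rw [← dep_one (D := D), ← dep_one (D := D'), h]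
  have third : ∀ i j : B, ∃ l, l ≠ i ∧ l ≠ j := by
    intro i j
    have hc : ({i, j} : Finset B).card < (Finset.univ : Finset B).card := by
      rw [Finset.card_univ]
      exact lt_of_le_of_lt Finset.card_le_two hB
    obtain ⟨l, -, hl⟩ := Finset.exists_mem_notMem_of_card_lt_card hc
    refine ⟨l, ?_, ?_⟩
    · rintro rfl; exact hl (by simp)
    · rintro rfl; exact hl (by simp)
  -- columns with prescribed entries on two rows
  have two : ∀ i j : B, i ≠ j → ∀ a b : K, ∃ x, D i x = a ∧ D j x = b := by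
    intro i j hij a b
    obtain ⟨l, hl1, hl2⟩ := third i j
    obtain ⟨x, h1, h2, -⟩ := hD i j l hij hl1.symm hl2.symm a b 0
    exact ⟨x, h1, h2⟩
  -- the comparison functions
  have hφ : ∀ i j : B, ∃ φ : K → K, i ≠ j → ∀ c, D j c ≠ 0 →
      D' i c = φ (D i c / D j c) * D' j c := by
    intro i j
    by_cases hij : i = j
    · exact ⟨id, fun h => absurd hij h⟩
    · choose x hx1 hx2 using fun a => two i j hij a 1
      refine ⟨fun a => D' i (x a) / D' j (x a), fun _ c hc => ?_⟩
      have hx0 : D' j (x (D i c / D j c)) ≠ 0 := by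
        rw [ne_eq, ← hz, hx2]; exact one_ne_zero
      by_cases hcx : c = x (D i c / D j c)
      · simp only
        rw [← hcx] at hx0 ⊢
        rw [div_mul_cancel₀ _ hx0]
      · have := two_minor h' (i := i) (j := j) hcx (by rw [hx2]; exact one_ne_zero) (by
          rw [hx1, hx2, mul_one, div_mul_cancel₀ _ hc])
        simp only
        rw [div_mul_eq_mul_div, eq_div_iff hx0, this]
  choose φ hφ using hφ
  have φ_zero : ∀ i j, i ≠ j → φ i j 0 = 0 := by
    intro i j hij
    obtain ⟨x, h1, h2⟩ := two i j hij 0 1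
    have h3 := hφ i j hij x (by rw [h2]; exact one_ne_zero)
    rw [h1, h2, zero_div, (hz i x).1 h1] at h3
    have h4 : D' j x ≠ 0 := by rw [ne_eq, ← hz, h2]; exact one_ne_zero
    rcases mul_eq_zero.1 h3.symm with h5 | h5
    · exact h5
    · exact absurd h5 h4
  have φ_ne : ∀ i j, i ≠ j → ∀ a, a ≠ 0 → φ i j a ≠ 0 := by
    intro i j hij a ha h0
    obtain ⟨x, h1, h2⟩ := two i j hij a 1
    have h3 := hφ i j hij x (by rw [h2]; exact one_ne_zero)
    rw [h1, h2, div_one, h0, zero_mul, ← hz, h1] at h3
    exact ha h3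
  have φ_mul : ∀ i j l, i ≠ j → i ≠ l → j ≠ l → ∀ a b, b ≠ 0 →
      φ i l (a * b) = φ i j a * φ j l b := by
    intro i j l hij hil hjl a b hb
    obtain ⟨x, h1, h2, h3⟩ := hD i j l hij hil hjl (a * b) b 1
    have e1 := hφ i j hij x (by rw [h2]; exact hb)
    have e2 := hφ j l hjl x (by rw [h3]; exact one_ne_zero)
    have e3 := hφ i l hil x (by rw [h3]; exact one_ne_zero)
    rw [h1, h2, mul_div_cancel_right₀ _ hb] at e1
    rw [h2, h3, div_one] at e2
    rw [h1, h3, div_one] at e3
    have h4 : D' l x ≠ 0 := by rw [ne_eq, ← hz, h3]; exact one_ne_zero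
    apply mul_right_cancel₀ h4
    rw [← e3, e1, e2]
    ring
  have φ_add : ∀ i j l, i ≠ j → i ≠ l → j ≠ l → ∀ a b, φ i l (a + b) = φ i l a + φ i l b := by
    intro i j l hij hil hjl a b
    obtain ⟨c, c1, c2, c3⟩ := hD i j l hij hil hjl a 1 0
    obtain ⟨e, e1, e2, e3⟩ := hD i j l hij hil hjl b 0 1
    obtain ⟨f, f1, f2, f3⟩ := hD i j l hij hil hjl (a + b) 1 1
    have hce : c ≠ e := by rintro rfl; rw [c2] at e2; exact one_ne_zero e2
    have hcf : c ≠ f := by rintro rfl; rw [c3] at f3; exact zero_ne_one f3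
    have hef : e ≠ f := by rintro rfl; rw [e2] at f2; exact zero_ne_one f2
    obtain ⟨α, β, δ, hne, r1, r2, r3⟩ := three_rel h' hce hcf hef
      (i := i) (j := j) (l := l) (by rw [c1, e1, f1]) (by rw [c2, e2, f2, add_zero])
      (by rw [c3, e3, f3, zero_add])
    have ce : D' l c = 0 := (hz l c).1 c3
    have ee : D' j e = 0 := (hz j e).1 e2
    have cj : D' j c ≠ 0 := by rw [ne_eq, ← hz, c2]; exact one_ne_zero
    have el : D' l e ≠ 0 := by rw [ne_eq, ← hz, e3]; exact one_ne_zero
    have fl : D' l f ≠ 0 := by rw [ne_eq, ← hz, f3]; exact one_ne_zero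
    have fj := hφ j l hjl f (by rw [f3]; exact one_ne_zero)
    have fi := hφ i l hil f (by rw [f3]; exact one_ne_zero)
    have ci := hφ i j hij c (by rw [c2]; exact one_ne_zero)
    have ei := hφ i l hil e (by rw [e3]; exact one_ne_zero)
    rw [f2, f3, div_one] at fj
    rw [f1, f3, div_one] at fi
    rw [c1, c2, div_one] at ci
    rw [e1, e3, div_one] at ei
    have hm := φ_mul i j l hij hil hjl a 1 one_ne_zero
    rw [mul_one] at hm
    rw [ce, mul_zero, zero_add] at r3
    rw [ee, mul_zero, add_zero, fj] at r2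
    have hδ : δ ≠ 0 := by
      rintro rfl
      rw [zero_mul, add_zero] at r2 r3
      have hα : α = 0 := by
        rcases mul_eq_zero.1 r2 with h5 | h5
        · exact h5
        · exact absurd h5 cj
      have hβ : β = 0 := by
        rcases mul_eq_zero.1 r3 with h5 | h5
        · exact h5
        · exact absurd h5 el
      rcases hne with h5 | h5 | h5
      · exact h5 hα
      · exact h5 hβ
      · exact h5 rfl
    rw [fi, ci, ei] at r1
    apply mul_left_cancel₀ hδ
    apply mul_right_cancel₀ fl
    linear_combination r1 - φ i j a * r2 - φ i l b * r3 - δ * D' l f * hm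
  -- base rows
  obtain ⟨r⟩ : Nonempty B := Fintype.card_pos_iff.1 (by omega)
  obtain ⟨i₀, hi₀, -⟩ := third r r
  obtain ⟨j₀, hj₀r, hj₀i⟩ := third r i₀
  have hbase : φ i₀ r 1 ≠ 0 := φ_ne i₀ r hi₀ 1 one_ne_zero
  set τ : K → K := fun a => φ i₀ r a / φ i₀ r 1 with hτ
  have τ_zero : τ 0 = 0 := by rw [hτ]; simp only; rw [φ_zero i₀ r hi₀, zero_div]
  have τ_one : τ 1 = 1 := by rw [hτ]; simp only; exact div_self hbase
  have τ_ne : ∀ a, a ≠ 0 → τ a ≠ 0 := by
    intro a ha
    rw [hτ]; simp only
    exact div_ne_zero (φ_ne i₀ r hi₀ a ha) hbase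
  have hS1 : ∀ i, i ≠ r → ∀ a, φ i r a = φ i r 1 * τ a := by
    intro i hi a
    by_cases hi0 : i = i₀
    · subst hi0
      rw [hτ]; simp only
      rw [mul_div_cancel₀ _ hbase]
    · by_cases ha : a = 0
      · rw [ha, τ_zero, mul_zero, φ_zero i r hi]
      · have e1 := φ_mul i i₀ r hi0 hi hi₀ 1 a ha
        have e2 := φ_mul i i₀ r hi0 hi hi₀ 1 1 one_ne_zero
        rw [one_mul] at e1
        rw [mul_one] at e2
        rw [e1, e2, hτ]
        simp only
        rw [mul_assoc, mul_div_cancel₀ _ hbase]
  have τ_mul : ∀ a b, τ (a * b) = τ a * τ b := by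
    intro a b
    by_cases hb : b = 0
    · rw [hb, mul_zero, τ_zero, mul_zero]
    · have e1 := φ_mul i₀ j₀ r hj₀i.symm hi₀ hj₀r a b hb
      have e2 := φ_mul i₀ j₀ r hj₀i.symm hi₀ hj₀r a 1 one_ne_zero
      rw [mul_one] at e2
      rw [hS1 j₀ hj₀r b, ← mul_assoc, ← e2] at e1
      have e3 : τ (a * b) = φ i₀ r (a * b) / φ i₀ r 1 := rfl
      have e4 : τ a = φ i₀ r a / φ i₀ r 1 := rfl
      rw [e3, e1, e4]
      ring
  have τ_add : ∀ a b, τ (a + b) = τ a + τ b := by
    intro a b
    have e1 := φ_add i₀ j₀ r hj₀i.symm hi₀ hj₀r a b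
    have e3 : τ (a + b) = φ i₀ r (a + b) / φ i₀ r 1 := rfl
    rw [e3, e1, add_div]
  let f : K →+* K :=
    { toFun := τ, map_one' := τ_one, map_mul' := τ_mul, map_zero' := τ_zero, map_add' := τ_add }
  have hfbij : Function.Bijective f := Finite.injective_iff_bijective.1 f.injective
  let σ : RingAut K := RingEquiv.ofBijective f hfbij
  have hσ : ∀ a, σ a = τ a := fun a => rfl
  set ρ : B → K := fun i => if i = r then 1 else φ i r 1 with hρ
  have ρ_ne : ∀ i, ρ i ≠ 0 := by
    intro i
    rw [hρ]; simp only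
    by_cases hi : i = r
    · rw [if_pos hi]; exact one_ne_zero
    · rw [if_neg hi]; exact φ_ne i r hi 1 one_ne_zero
  have ρ_r : ρ r = 1 := by rw [hρ]; simp
  have ρ_i : ∀ i, i ≠ r → ρ i = φ i r 1 := by
    intro i hi
    rw [hρ]; simp only
    rw [if_neg hi]
  have hgen : ∀ i j, i ≠ j → ∀ a, φ i j a * ρ j = ρ i * τ a := by
    intro i j hij a
    by_cases hjr : j = r
    · subst hjr
      rw [ρ_r, mul_one, ρ_i i hij, hS1 i hij]
    · by_cases hir : i = r
      · subst hir
        rw [ρ_r, one_mul, ρ_i j hjr]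
        by_cases ha : a = 0
        · rw [ha, τ_zero, φ_zero i j hij, zero_mul]
        · obtain ⟨x, h1, h2⟩ := two i j hij a 1
          have e1 := hφ i j hij x (by rw [h2]; exact one_ne_zero)
          have e2 := hφ j i hjr x (by rw [h1]; exact ha)
          rw [h1, h2, div_one] at e1
          rw [h1, h2, hS1 j hjr] at e2
          have e3 : τ (1 / a) * τ a = 1 := by
            rw [← τ_mul, one_div, inv_mul_cancel₀ ha, τ_one]
          have h4 : D' i x ≠ 0 := by rw [ne_eq, ← hz, h1]; exact ha
          apply mul_right_cancel₀ h4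
          have e4 : D' i x * τ a = φ i j a * (φ j i 1 * (τ (1 / a) * τ a) * D' i x) := by
            conv_lhs => rw [e1, e2]
            ring
          rw [e3] at e4
          linear_combination -e4
      · have e1 := φ_mul i j r hij hir hjr a 1 one_ne_zero
        rw [mul_one] at e1
        rw [ρ_i j hjr, ← e1, hS1 i hir, ρ_i i hir]
  have hγ : ∀ c, ∃ g : K, g ≠ 0 ∧ ∀ i, D' i c = ρ i * g * τ (D i c) := by
    intro c
    by_cases hc : ∃ j, D j c ≠ 0
    · obtain ⟨j, hj⟩ := hc
      have hj' : D' j c ≠ 0 := by rw [ne_eq, ← hz]; exact hj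
      have hτj := τ_ne _ hj
      have hρj := ρ_ne j
      refine ⟨D' j c / (ρ j * τ (D j c)), div_ne_zero hj' (mul_ne_zero hρj hτj), ?_⟩
      intro i
      by_cases hij : i = j
      · subst hij
        field_simp
      · have e1 := hφ i j hij c hj
        have e2 := hgen i j hij (D i c / D j c)
        have e3 : τ (D i c / D j c) * τ (D j c) = τ (D i c) := by
          rw [← τ_mul, div_mul_cancel₀ _ hj]
        rw [← e3]
        field_simp
        rw [e1]
        linear_combination D' j c * e2
    · push Not at hc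
      refine ⟨1, one_ne_zero, fun i => ?_⟩
      rw [hc i, τ_zero, mul_zero]
      exact (hz i c).1 (hc i)
  choose γ hγ1 hγ2 using hγ
  exact ⟨σ, fun i => Units.mk0 (ρ i) (ρ_ne i), fun c => Units.mk0 (γ c) (hγ1 c), fun i c => by
    rw [hσ, Units.val_mk0, Units.val_mk0]; exact hγ2 c i⟩

end Pool.Agent.Lib.MP_e84969_co
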