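import Pool.Agent.Lib.MP_e84969_co.Gp
import Pool.Agent.Lib.MP_e84969_co.Rigid

/-!
# Good subspaces are determined by their matroids up to semimonomial transformations
-/

set_option linter.unusedSectionVars false

namespace Pool.Agent.Lib.MP_e84969_co

open SM

variable {K : Type*} [Field K] {ι : Type*} [Fintype ι] [DecidableEq ι]

/-- Independence of a set of coordinates in the matroid of the subspace `U`: no nonzero vector
supported on `I` is orthogonal to `U`. -/
def Ind (U : Submodule K (ι → K)) (I : Set ι) : Prop :=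
  ∀ a : ι → K, (∀ i ∉ I, a i = 0) → (∀ u ∈ U, ∑ i, a i * u i = 0) → a = 0

/-- `u` is the standard basis of `U` with respect to the information set `B`. -/
structure IsStd (U : Submodule K (ι → K)) (B : Finset ι) (u : B → ι → K) : Prop where
  mem : ∀ i, u i ∈ U
  one : ∀ i j : B, u i j = if i = j then 1 else 0
  span : ∀ w ∈ U, w = ∑ i : B, w i • u i

/-- The non-identity part of the standard generator matrix. -/
def Mat {B : Finset ι} (u : B → ι → K) (i : B) (c : (Bᶜ : Finset ι)) : K := u i c

/-- Good subspaces: some standard generator matrix with at least three rows contains every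
pattern on every three rows. -/
def Good (U : Submodule K (ι → K)) : Prop :=
  ∃ (B : Finset ι) (u : B → ι → K), 3 ≤ B.card ∧ IsStd U B u ∧ Rich (Mat u)

lemma sum_split (B : Finset ι) (f : ι → K) :
    ∑ x, f x = ∑ i : B, f i + ∑ c : (Bᶜ : Finset ι), f c := by
  rw [Finset.sum_coe_sort B f, Finset.sum_coe_sort Bᶜ f, Finset.sum_add_sum_compl]

/-- The set of coordinates attached to rows `R` and columns `C₀`. -/
def setOf' (B : Finset ι) (R : Set B) (C₀ : Set (Bᶜ : Finset ι)) : Set ι :=
  {x | (∃ h : x ∈ B, (⟨x, h⟩ : B) ∉ R) ∨ ∃ h : x ∈ Bᶜ, (⟨x, h⟩ : (Bᶜ : Finset ι)) ∈ C₀}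

lemma pair_std {B : Finset ι} {U : Submodule K (ι → K)} {u : B → ι → K} (hu : IsStd U B u)
    (a : ι → K) (j : B) :
    ∑ x, a x * u j x = a j + ∑ c : (Bᶜ : Finset ι), a c * Mat u j c := by
  rw [sum_split B]
  congr 1
  rw [Finset.sum_eq_single j]
  · rw [hu.one]; simp
  · intro i _ hij
    rw [hu.one, if_neg (fun h => hij h.symm), mul_zero]
  · intro h; exact absurd (Finset.mem_univ j) h

lemma perp_of_std {B : Finset ι} {U : Submodule K (ι → K)} {u : B → ι → K} (hu : IsStd U B u)
    {a : ι → K} (ha : ∀ j, ∑ x, a x * u j x = 0) : ∀ w ∈ U, ∑ x, a x * w x = 0 := by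
  intro w hw
  rw [hu.span w hw]
  have : ∀ x, a x * (∑ i : B, w i • u i) x = ∑ i : B, w i * (a x * u i x) := by
    intro x
    rw [Finset.sum_apply, Finset.mul_sum]
    refine Finset.sum_congr rfl fun i _ => ?_
    rw [Pi.smul_apply, smul_eq_mul]
    ring
  rw [Finset.sum_congr rfl fun x _ => this x, Finset.sum_comm]
  refine Finset.sum_eq_zero fun i _ => ?_
  rw [← Finset.mul_sum, ha i, mul_zero]

lemma dep_iff {B : Finset ι} {U : Submodule K (ι → K)} {u : B → ι → K} (hu : IsStd U B u)
    (R : Set B) (C₀ : Set (Bᶜ : Finset ι)) :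
    Dep (Mat u) R C₀ ↔ ¬ Ind U (setOf' B R C₀) := by
  constructor
  · rintro ⟨t, ht, hs, hr⟩ hI
    let a : ι → K := fun x => if h : x ∈ B then -∑ c, t c * Mat u ⟨x, h⟩ c else
      t ⟨x, Finset.mem_compl.2 h⟩
    have haB : ∀ j : B, a j = -∑ c, t c * Mat u j c := by
      intro j
      simp only [a, dif_pos j.2]
    have haC : ∀ c : (Bᶜ : Finset ι), a c = t c := by
      intro c
      simp only [a, dif_neg (Finset.mem_compl.1 c.2)]
    have ha0 : a = 0 := by
      apply hI a
      · intro x hx
        by_cases hxB : x ∈ B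
        · have hxR : (⟨x, hxB⟩ : B) ∈ R := by
            by_contra h
            exact hx (Or.inl ⟨hxB, h⟩)
          have := haB ⟨x, hxB⟩
          rw [hr _ hxR, neg_zero] at this
          exact this
        · have hxC : (⟨x, Finset.mem_compl.2 hxB⟩ : (Bᶜ : Finset ι)) ∉ C₀ := fun h =>
            hx (Or.inr ⟨Finset.mem_compl.2 hxB, h⟩)
          have := haC ⟨x, Finset.mem_compl.2 hxB⟩
          rw [hs _ hxC] at this
          exact this
      · apply perp_of_std hu
        intro j
        rw [pair_std hu, haB]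
        simp only [haC]
        exact neg_add_cancel _
    apply ht
    funext c
    rw [← haC c, ha0]
    rfl
  · intro hI
    unfold Ind at hI
    push Not at hI
    obtain ⟨a, hs, hp, ha⟩ := hI
    refine ⟨fun c => a c, ?_, ?_, ?_⟩
    · intro h0
      apply ha
      funext x
      have hc : ∀ c : (Bᶜ : Finset ι), a c = 0 := fun c => congrFun h0 c
      by_cases hxB : x ∈ B
      · have := hp _ (hu.mem ⟨x, hxB⟩)
        rw [pair_std hu, Finset.sum_eq_zero fun c _ => by rw [hc c, zero_mul], add_zero] at this
        exact this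
      · exact hc ⟨x, Finset.mem_compl.2 hxB⟩
    · intro c hc
      apply hs
      rintro (⟨h, -⟩ | ⟨h, h'⟩)
      · exact (Finset.mem_compl.1 c.2) h
      · exact hc h'
    · intro i hi
      have h1 := hp _ (hu.mem i)
      rw [pair_std hu] at h1
      have h2 : a i = 0 := by
        apply hs
        rintro (⟨h, h'⟩ | ⟨h, -⟩)
        · exact h' hi
        · exact (Finset.mem_compl.1 h) i.2
      rwa [h2, zero_add] at h1

lemma ind_B {B : Finset ι} {U : Submodule K (ι → K)} {u : B → ι → K} (hu : IsStd U B u) :
    Ind U (B : Set ι) := by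
  intro a hs hp
  funext x
  by_cases hx : x ∈ B
  · have h1 := hp _ (hu.mem ⟨x, hx⟩)
    rw [pair_std hu, Finset.sum_eq_zero fun c _ => by
      rw [hs c (fun h => Finset.mem_compl.1 c.2 h), zero_mul], add_zero] at h1
    exact h1
  · exact hs x hx

lemma not_ind_insert {B : Finset ι} {U : Submodule K (ι → K)} {u : B → ι → K}
    (hu : IsStd U B u) {c : ι} (hc : c ∉ B) : ¬ Ind U (insert c (B : Set ι)) := by
  intro hI
  let a : ι → K := fun x => if h : x ∈ B then -u ⟨x, h⟩ c else if x = c then 1 else 0
  have haB : ∀ j : B, a j = -u j c := by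
    intro j
    simp only [a, dif_pos j.2]
  have haC : ∀ d : (Bᶜ : Finset ι), a d = if (d : ι) = c then 1 else 0 := by
    intro d
    simp only [a, dif_neg (Finset.mem_compl.1 d.2)]
  have ha0 : a = 0 := by
    apply hI a
    · intro x hx
      have h1 : x ≠ c := fun h => hx (Or.inl h)
      have h2 : x ∉ B := fun h => hx (Or.inr h)
      have := haC ⟨x, Finset.mem_compl.2 h2⟩
      rw [if_neg h1] at this
      exact this
    · apply perp_of_std hu
      intro j
      rw [pair_std hu, haB, Finset.sum_eq_single ⟨c, Finset.mem_compl.2 hc⟩]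
      · rw [haC, if_pos rfl, one_mul, Mat]
        exact neg_add_cancel _
      · intro d _ hd
        have : (d : ι) ≠ c := fun h => hd (Subtype.ext h)
        rw [haC, if_neg this, zero_mul]
      · intro h; exact absurd (Finset.mem_univ _) h
  have := haC ⟨c, Finset.mem_compl.2 hc⟩
  rw [ha0, if_pos rfl] at this
  exact zero_ne_one this

/-- Information sets only depend on the matroid. -/
lemma exists_std {B : Finset ι} {U U' : Submodule K (ι → K)} {u : B → ι → K}
    (hu : IsStd U B u) (h : ∀ I, Ind U I ↔ Ind U' I) : ∃ u', IsStd U' B u' := by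
  have hB : Ind U' (B : Set ι) := (h _).1 (ind_B hu)
  -- the restriction map to `B`
  let r : (ι → K) →ₗ[K] (B → K) := LinearMap.funLeft K K (fun i : B => (i : ι))
  have hr : ∀ w i, r w i = w i := fun w i => rfl
  have hsurj : U'.map r = ⊤ := by
    by_contra hne
    obtain ⟨f, hf, hfU⟩ := Submodule.exists_le_ker_of_lt_top _ (lt_top_iff_ne_top.2 hne)
    let a : ι → K := fun x => if h : x ∈ B then f (Pi.single ⟨x, h⟩ 1) else 0
    have haB : ∀ j : B, a j = f (Pi.single j 1) := by
      intro j
      simp only [a, dif_pos j.2]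
    have hsum : ∀ w : ι → K, ∑ x, a x * w x = f (r w) := by
      intro w
      rw [sum_split B, Finset.sum_eq_zero (s := Finset.univ)
        (f := fun c : (Bᶜ : Finset ι) => a c * w c), add_zero]
      · have h1 : r w = ∑ i : B, w i • (Pi.single i 1 : B → K) := by
          ext j
          rw [Finset.sum_apply, Finset.sum_eq_single j]
          · simp [hr]
          · intro i _ hij
            have hji : j ≠ i := fun h => hij h.symm
            simp [hji]
          · intro h; exact absurd (Finset.mem_univ j) h
        rw [h1, map_sum]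
        refine Finset.sum_congr rfl fun i _ => ?_
        rw [map_smul, haB, smul_eq_mul, mul_comm]
      · intro c _
        have : a c = 0 := by
          simp only [a, dif_neg (Finset.mem_compl.1 c.2)]
        rw [this, zero_mul]
    have ha0 : a = 0 := by
      apply hB a
      · intro x hx
        have hx' : x ∉ B := hx
        simp only [a, dif_neg hx']
      · intro w hw
        rw [hsum]
        exact hfU (Submodule.mem_map_of_mem hw)
    apply hf
    apply LinearMap.pi_ext'
    intro j
    apply LinearMap.ext_ring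
    simp only [LinearMap.comp_apply, LinearMap.single_apply, LinearMap.zero_apply]
    rw [← haB j, ha0]
    rfl
  have hex : ∀ i : B, ∃ w ∈ U', r w = Pi.single i 1 := by
    intro i
    have : (Pi.single i 1 : B → K) ∈ U'.map r := by rw [hsurj]; trivial
    obtain ⟨w, hw, hw'⟩ := this
    exact ⟨w, hw, hw'⟩
  choose u' hu'U hu'r using hex
  have hone : ∀ i j : B, u' i j = if i = j then 1 else 0 := by
    intro i j
    have h1 : u' i j = r (u' i) j := rfl
    rw [h1, hu'r, Pi.single_apply]
    by_cases hij : i = j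
    · simp [hij]
    · have : ¬ j = i := fun h => hij h.symm
      simp [hij, this]
  refine ⟨u', ⟨hu'U, hone, ?_⟩⟩
  intro w hw
  -- the difference vanishes on `B`
  set v : ι → K := w - ∑ i : B, w i • u' i with hv
  have hvU : v ∈ U' := U'.sub_mem hw (U'.sum_mem fun i _ => U'.smul_mem _ (hu'U i))
  have hvB : ∀ j : B, v j = 0 := by
    intro j
    rw [hv, Pi.sub_apply, Finset.sum_apply, Finset.sum_eq_single j]
    · rw [Pi.smul_apply, hone, if_pos rfl, smul_eq_mul, mul_one, sub_self]
    · intro i _ hij
      rw [Pi.smul_apply, hone, if_neg hij, smul_zero]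
    · intro h; exact absurd (Finset.mem_univ j) h
  have hv0 : v = 0 := by
    funext c
    by_cases hc : c ∈ B
    · exact hvB ⟨c, hc⟩
    · by_contra hvc
      have hvc' : v c ≠ 0 := hvc
      have h1 : ¬ Ind U' (insert c (B : Set ι)) := fun h' => not_ind_insert hu hc ((h _).2 h')
      unfold Ind at h1
      push Not at h1
      obtain ⟨a, hs, hp, ha⟩ := h1
      have hac : a c ≠ 0 := by
        intro hac
        apply ha
        apply hB a _ hp
        intro x hx
        by_cases hxc : x = c
        · rw [hxc]; exact hac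
        · exact hs x (by rintro (h | h); exacts [hxc h, hx h])
      have h2 := hp v hvU
      rw [Finset.sum_eq_single c] at h2
      · rcases mul_eq_zero.1 h2 with h3 | h3
        · exact hac h3
        · exact hvc' h3
      · intro x _ hxc
        by_cases hxB : x ∈ B
        · rw [hvB ⟨x, hxB⟩, mul_zero]
        · rw [hs x (by rintro (h | h); exacts [hxc h, hxB h]), zero_mul]
      · intro h; exact absurd (Finset.mem_univ c) h
  rw [hv, sub_eq_zero] at hv0
  exact hv0

/-- The uniqueness theorem: a good subspace is determined by its matroid up to scaling of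
coordinates and field automorphisms. -/
theorem same_orbit [Finite K] {U U' : Submodule K (ι → K)} (hU : Good U)
    (h : ∀ I, Ind U I ↔ Ind U' I) : ∃ g : SM K ι, g • U = U' := by
  obtain ⟨B, u, hB, hu, hrich⟩ := hU
  obtain ⟨u', hu'⟩ := exists_std hu h
  obtain ⟨σ, ρ, γ, hD⟩ := rigid (D := Mat u) (D' := Mat u') (by rwa [Fintype.card_coe]) hrich
    (fun R C₀ => by rw [dep_iff hu, dep_iff hu', h])
  let g : SM K ι := ⟨1, fun x => if hx : x ∈ B then (ρ ⟨x, hx⟩)⁻¹ else
    γ ⟨x, Finset.mem_compl.2 hx⟩, σ⟩
  have hact : ∀ i : B, act g (u i) = ((ρ i)⁻¹ : Kˣ).val • u' i := by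
    intro i
    funext x
    rw [act_apply]
    have hperm : g.perm.symm x = x := rfl
    have haut : g.aut = σ := rfl
    rw [hperm, haut, Pi.smul_apply, smul_eq_mul]
    by_cases hx : x ∈ B
    · have e1 : g.diag x = (ρ ⟨x, hx⟩)⁻¹ := by simp only [g, dif_pos hx]
      have e2 : u i x = if i = ⟨x, hx⟩ then 1 else 0 := hu.one i ⟨x, hx⟩
      have e3 : u' i x = if i = ⟨x, hx⟩ then 1 else 0 := hu'.one i ⟨x, hx⟩
      rw [e1, e2, e3]
      by_cases hix : i = ⟨x, hx⟩
      · subst hix; simp
      · rw [if_neg hix, map_zero, mul_zero, mul_zero]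
    · have e1 : g.diag x = γ ⟨x, Finset.mem_compl.2 hx⟩ := by simp only [g, dif_neg hx]
      have e2 : u' i x = Mat u' i ⟨x, Finset.mem_compl.2 hx⟩ := rfl
      have e3 : u i x = Mat u i ⟨x, Finset.mem_compl.2 hx⟩ := rfl
      rw [e1, e2, e3, hD, ← mul_assoc, ← mul_assoc, Units.inv_mul, one_mul]
  refine ⟨g, le_antisymm ?_ ?_⟩
  · rintro _ ⟨w, hw, rfl⟩
    rw [hu.span w hw, act_sum]
    refine U'.sum_mem fun i _ => ?_
    rw [act_smul, hact]
    exact U'.smul_mem _ (U'.smul_mem _ (hu'.mem i))
  · intro w hw
    rw [hu'.span w hw]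
    refine Submodule.sum_mem _ fun i _ => Submodule.smul_mem _ _ ?_
    have : u' i = (ρ i : K) • act g (u i) := by
      rw [hact, smul_smul, Units.mul_inv, one_smul]
    rw [this]
    exact Submodule.smul_mem _ _ (act_mem_smul (hu.mem i))

/-- The permutation part. -/
def permSM (K : Type*) [Field K] {ι : Type*} (π : Equiv.Perm ι) : SM K ι := ⟨π, fun _ => 1, 1⟩

lemma act_permSM (π : Equiv.Perm ι) (v : ι → K) (x : ι) :
    act (permSM K π) v x = v (π.symm x) := by
  rw [act_apply]
  simp [permSM]

lemma ind_perm (π : Equiv.Perm ι) (U : Submodule K (ι → K)) (I : Set ι) :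
    Ind (permSM K π • U) (π '' I) ↔ Ind U I := by
  have hsum : ∀ a u : ι → K, ∑ x, a x * act (permSM K π) u x = ∑ x, a (π x) * u x := by
    intro a u
    rw [← Equiv.sum_comp π]
    refine Finset.sum_congr rfl fun x _ => ?_
    rw [act_permSM, Equiv.symm_apply_apply]
  constructor
  · intro h a hs hp
    have h1 := h (fun x => a (π.symm x)) (fun i hi => hs _ (fun h' => hi ⟨_, h', by simp⟩)) (by
      rintro _ ⟨u, hu, rfl⟩
      rw [hsum]
      simpa using hp u hu)
    funext x
    have := congrFun h1 (π x)
    simpa using this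
  · intro h a hs hp
    have h1 := h (fun x => a (π x)) (fun i hi => hs _ (by
      rintro ⟨j, hj, hji⟩
      rw [π.injective hji] at hj
      exact hi hj)) (by
      intro u hu
      rw [← hsum]
      exact hp _ (act_mem_smul hu))
    funext x
    have := congrFun h1 (π.symm x)
    simpa using this

/-- Subspaces with isomorphic matroids, one of them good, are in the same orbit. -/
theorem orbit_of_iso [Finite K] {U U' : Submodule K (ι → K)} (hU' : Good U')
    (π : Equiv.Perm ι) (h : ∀ I, Ind U I ↔ Ind U' (π '' I)) :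
    MulAction.orbitRel (SM K ι) (Submodule K (ι → K)) U U' := by
  have h1 : ∀ J, Ind U' J ↔ Ind (permSM K π • U) J := by
    intro J
    have hJ : J = π '' (π.symm '' J) := by
      rw [← Set.image_comp]
      simp
    rw [hJ, ind_perm, h]
  obtain ⟨g, hg⟩ := same_orbit hU' h1
  rw [MulAction.orbitRel_apply]
  refine ⟨(permSM K π)⁻¹ * g, ?_⟩
  simp only
  rw [mul_smul, hg, inv_smul_smul]

end Pool.Agent.Lib.MP_e84969_co
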