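import Pool.Agent.Lib.MP_e84969_co.Count
import Pool.Agent.Lib.MP_e84969_co.Fix
import Pool.Agent.Lib.MP_e84969_co.Unique

/-!
# Almost all subspaces are good
-/

set_option linter.unusedSectionVars false

namespace Pool.Agent.Lib.MP_e84969_co

open Module

variable {K : Type*} [Field K]

/-- Standard basis with respect to an indexed information set. -/
structure IsStd2 {ι : Type*} {m : ℕ} (U : Submodule K (ι → K)) (f : Fin m → ι)
    (u : Fin m → ι → K) : Prop where
  mem : ∀ i, u i ∈ U
  one : ∀ i j, u i (f j) = if i = j then 1 else 0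
  span : ∀ w ∈ U, w = ∑ i, w (f i) • u i

/-- Version of `Good` with indexed information sets. -/
def Good2 {ι : Type*} (U : Submodule K (ι → K)) : Prop :=
  ∃ (m : ℕ) (f : Fin m → ι) (u : Fin m → ι → K), 3 ≤ m ∧ IsStd2 U f u ∧
    ∀ i j l, i ≠ j → i ≠ l → j ≠ l → ∀ a b c : K, ∃ x, (∀ k, f k ≠ x) ∧
      u i x = a ∧ u j x = b ∧ u l x = c

lemma good_of_good2 {ι : Type*} [Fintype ι] [DecidableEq ι] {U : Submodule K (ι → K)}
    (h : Good2 U) : Good U := by
  obtain ⟨m, f, u, hm, hu, hr⟩ := h
  have hinj : Function.Injective f := by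
    intro i j hij
    by_contra hne
    have h1 := hu.one i i
    have h2 := hu.one i j
    rw [if_pos rfl] at h1
    rw [if_neg hne, ← hij, h1] at h2
    exact one_ne_zero h2
  let B : Finset ι := Finset.univ.image f
  have hmem : ∀ i, f i ∈ B := fun i => Finset.mem_image_of_mem f (Finset.mem_univ i)
  let e : Fin m ≃ B := Equiv.ofBijective (fun i => ⟨f i, hmem i⟩) ⟨fun i j h =>
    hinj (congrArg Subtype.val h), fun b => by
      obtain ⟨i, -, hi⟩ := Finset.mem_image.1 b.2
      exact ⟨i, Subtype.ext hi⟩⟩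
  have he : ∀ i, ((e i : B) : ι) = f i := fun i => rfl
  have hcard : B.card = m := by
    rw [Finset.card_image_of_injective _ hinj, Finset.card_univ, Fintype.card_fin]
  refine ⟨B, fun b => u (e.symm b), by rw [hcard]; exact hm, ⟨fun b => hu.mem _, ?_, ?_⟩, ?_⟩
  · intro b b'
    have h1 := hu.one (e.symm b) (e.symm b')
    rw [← he, Equiv.apply_symm_apply] at h1
    rw [h1]
    simp
  · intro w hw
    have h1 := hu.span w hw
    conv_lhs => rw [h1]
    rw [← Equiv.sum_comp e]
    refine Finset.sum_congr rfl fun i _ => ?_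
    rw [he, Equiv.symm_apply_apply]
  · intro i j l hij hil hjl a b c
    obtain ⟨x, hx, h1, h2, h3⟩ := hr (e.symm i) (e.symm j) (e.symm l)
      (fun h => hij (e.symm.injective h)) (fun h => hil (e.symm.injective h))
      (fun h => hjl (e.symm.injective h)) a b c
    have hxB : x ∈ Bᶜ := by
      rw [Finset.mem_compl]
      intro hxB
      obtain ⟨k, -, hk⟩ := Finset.mem_image.1 hxB
      exact hx k hk
    exact ⟨⟨x, hxB⟩, h1, h2, h3⟩

lemma span_of_one {ι : Type*} {m : ℕ} {f : Fin m → ι} {u : Fin m → ι → K}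
    (h1 : ∀ i j, u i (f j) = if i = j then 1 else 0) {w : ι → K}
    (hw : w ∈ Submodule.span K (Set.range u)) : w = ∑ i, w (f i) • u i := by
  obtain ⟨c, rfl⟩ := (Submodule.mem_span_range_iff_exists_fun K).1 hw
  refine Finset.sum_congr rfl fun i _ => ?_
  congr 1
  rw [Finset.sum_apply, Finset.sum_eq_single i]
  · rw [Pi.smul_apply, h1, if_pos rfl, smul_eq_mul, mul_one]
  · intro j _ hj
    rw [Pi.smul_apply, h1, if_neg hj, smul_zero]
  · intro h; exact absurd (Finset.mem_univ i) h

/-- Every subspace has an information set. -/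
lemma exists_std2 {ι : Type*} [Finite ι] (U : Submodule K (ι → K)) :
    ∃ (f : Fin (finrank K U) → ι) (u : Fin (finrank K U) → ι → K), IsStd2 U f u := by
  classical
  let v : ι → Dual K U := fun x => (LinearMap.proj x).comp U.subtype
  obtain ⟨κ, a, ha, hspan, hli⟩ := exists_linearIndependent' K v
  have hfin : Finite κ := Finite.of_injective a ha
  have hft := Fintype.ofFinite κ
  let E : U →ₗ[K] (κ → K) := LinearMap.pi fun k => v (a k)
  have hE : ∀ w k, E w k = (w : ι → K) (a k) := fun w k => rfl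
  have hEinj : Function.Injective E := by
    rw [← LinearMap.ker_eq_bot, LinearMap.ker_eq_bot']
    intro w hw
    have h1 : ∀ φ ∈ Submodule.span K (Set.range (v ∘ a)), φ w = 0 := by
      intro φ hφ
      induction hφ using Submodule.span_induction with
      | mem φ h =>
        obtain ⟨k, rfl⟩ := h
        exact congrFun hw k
      | zero => rfl
      | add φ ψ _ _ h1 h2 => rw [LinearMap.add_apply, h1, h2, add_zero]
      | smul c φ _ h1 => rw [LinearMap.smul_apply, h1, smul_zero]
    rw [hspan] at h1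
    apply Subtype.ext
    funext x
    exact h1 (v x) (Submodule.subset_span ⟨x, rfl⟩)
  have hcard : Fintype.card κ = finrank K U := by
    apply le_antisymm
    · have := hli.fintype_card_le_finrank
      rwa [Subspace.dual_finrank_eq] at this
    · have := LinearMap.finrank_le_finrank_of_injective hEinj
      rwa [Module.finrank_fintype_fun_eq_card] at this
  let e : Fin (finrank K U) ≃ κ := (Fintype.equivFinOfCardEq hcard).symm
  let EE : U ≃ₗ[K] (κ → K) := LinearEquiv.ofBijective E ⟨hEinj, by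
    apply (LinearMap.injective_iff_surjective_of_finrank_eq_finrank _).1 hEinj
    rw [Module.finrank_fintype_fun_eq_card, hcard]⟩
  have hEE : ∀ w k, EE w k = (w : ι → K) (a k) := fun w k => rfl
  refine ⟨fun i => a (e i), fun i => (EE.symm (Pi.single (e i) 1) : U), ⟨fun i => Subtype.mem _,
    ?_, ?_⟩⟩
  · intro i j
    rw [← hEE, LinearEquiv.apply_symm_apply, Pi.single_apply]
    by_cases hij : i = j
    · simp [hij]
    · have : ¬ e j = e i := fun h => hij (e.injective h).symm
      simp [hij, this]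
  · intro w hw
    have h1 : (⟨w, hw⟩ : U) = ∑ i, w (a (e i)) • EE.symm (Pi.single (e i) 1) := by
      apply EE.injective
      rw [map_sum]
      funext k
      rw [Finset.sum_apply, Finset.sum_eq_single (e.symm k)]
      · rw [map_smul, LinearEquiv.apply_symm_apply, Equiv.apply_symm_apply, hEE]
        simp
      · intro j _ hj
        rw [map_smul, LinearEquiv.apply_symm_apply, Pi.smul_apply, Pi.single_apply, if_neg,
          smul_zero]
        rintro rfl
        exact hj (by simp)
      · intro h; exact absurd (Finset.mem_univ _) h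
    have h2 := congrArg (Submodule.subtype U) h1
    rw [map_sum] at h2
    simpa using h2

section Param

variable {ι₁ ι₂ : Type*} [Finite ι₁] [Finite ι₂]

/-- Chosen information set. -/
noncomputable def stdF (U : Submodule K (ι₁ → K)) : Fin (finrank K U) → ι₁ :=
  (exists_std2 U).choose

/-- Chosen standard basis. -/
noncomputable def stdU (U : Submodule K (ι₁ → K)) : Fin (finrank K U) → ι₁ → K :=
  (exists_std2 U).choose_spec.choose

lemma std_spec (U : Submodule K (ι₁ → K)) : IsStd2 U (stdF U) (stdU U) :=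
  (exists_std2 U).choose_spec.choose_spec

/-- Extend vectors by further coordinates. -/
def ext2 {m : ℕ} (u : Fin m → ι₁ → K) (D : ι₂ → Fin m → K) (i : Fin m) : ι₁ ⊕ ι₂ → K :=
  Sum.elim (u i) (fun c => D c i)

/-- The parametrization of subspaces that meet the second block of coordinates trivially. -/
noncomputable def Phi (x : Σ U : Submodule K (ι₁ → K), ι₂ → Fin (finrank K U) → K) :
    Submodule K (ι₁ ⊕ ι₂ → K) :=
  Submodule.span K (Set.range (ext2 (stdU x.1) x.2))

lemma Phi_std (x : Σ U : Submodule K (ι₁ → K), ι₂ → Fin (finrank K U) → K) :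
    IsStd2 (Phi x) (fun i => Sum.inl (stdF x.1 i)) (ext2 (stdU x.1) x.2) := by
  have hone : ∀ i j, ext2 (stdU x.1) x.2 i (Sum.inl (stdF x.1 j)) = if i = j then 1 else 0 :=
    fun i j => (std_spec x.1).one i j
  exact ⟨fun i => Submodule.subset_span ⟨i, rfl⟩, hone, fun w hw => span_of_one hone hw⟩

/-- Restriction to the first block. -/
def res1 (K : Type*) [Field K] (ι₁ ι₂ : Type*) : (ι₁ ⊕ ι₂ → K) →ₗ[K] (ι₁ → K) :=
  LinearMap.funLeft K K Sum.inl

lemma res1_apply (w : ι₁ ⊕ ι₂ → K) (i : ι₁) : res1 K ι₁ ι₂ w i = w (Sum.inl i) := rfl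

lemma span_stdU (U : Submodule K (ι₁ → K)) : Submodule.span K (Set.range (stdU U)) = U := by
  apply le_antisymm
  · rw [Submodule.span_le]
    rintro _ ⟨i, rfl⟩
    exact (std_spec U).mem i
  · intro w hw
    rw [(std_spec U).span w hw]
    exact Submodule.sum_mem _ fun i _ => Submodule.smul_mem _ _ (Submodule.subset_span ⟨i, rfl⟩)

lemma map_Phi (x : Σ U : Submodule K (ι₁ → K), ι₂ → Fin (finrank K U) → K) :
    (Phi x).map (res1 K ι₁ ι₂) = x.1 := by
  rw [Phi, Submodule.map_span, ← Set.range_comp]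
  have : (res1 K ι₁ ι₂ ∘ ext2 (stdU x.1) x.2) = stdU x.1 := by
    funext i
    rfl
  rw [this, span_stdU]

lemma Phi_injective : Function.Injective
    (Phi : (Σ U : Submodule K (ι₁ → K), ι₂ → Fin (finrank K U) → K) → _) := by
  rintro ⟨U, D⟩ ⟨U', D'⟩ h
  have h1 : U = U' := by
    have := congrArg (Submodule.map (res1 K ι₁ ι₂)) h
    rwa [map_Phi, map_Phi] at this
  subst h1
  congr 1
  funext c i
  have h2 : ext2 (stdU U) D' i ∈ Phi ⟨U, D⟩ := by
    rw [h]; exact (Phi_std ⟨U, D'⟩).mem i
  have h3 := (Phi_std ⟨U, D⟩).span _ h2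
  have h4 := congrFun h3 (Sum.inr c)
  rw [Finset.sum_apply, Finset.sum_eq_single i] at h4
  · have h5 := (Phi_std ⟨U, D'⟩).one i i
    rw [if_pos rfl] at h5
    rw [Pi.smul_apply] at h4
    have h6 : ext2 (stdU U) D' i (Sum.inl (stdF U i)) = 1 := h5
    rw [h6, one_smul] at h4
    exact h4.symm
  · intro j _ hj
    have h5 := (Phi_std ⟨U, D'⟩).one i j
    rw [if_neg (fun h => hj h.symm)] at h5
    have h6 : ext2 (stdU U) D' i (Sum.inl (stdF U j)) = 0 := h5
    rw [Pi.smul_apply, h6, zero_smul]
  · intro h; exact absurd (Finset.mem_univ i) h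

lemma Phi_surj (U : Submodule K (ι₁ ⊕ ι₂ → K))
    (hU : ∀ w ∈ U, (∀ i, w (Sum.inl i) = 0) → w = 0) : ∃ x, Phi (ι₂ := ι₂) x = U := by
  set U₁ := U.map (res1 K ι₁ ι₂) with hU₁
  have hex : ∀ i, ∃ w ∈ U, res1 K ι₁ ι₂ w = stdU U₁ i := fun i => by
    have := (std_spec U₁).mem i
    obtain ⟨w, hw, hw'⟩ := this
    exact ⟨w, hw, hw'⟩
  choose w hwU hw1 using hex
  refine ⟨⟨U₁, fun c i => w i (Sum.inr c)⟩, ?_⟩
  have hext : ext2 (stdU U₁) (fun c i => w i (Sum.inr c)) = w := by
    funext i x
    rcases x with x | x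
    · have := congrFun (hw1 i) x
      exact this.symm
    · rfl
  have hone : ∀ i j, w i (Sum.inl (stdF U₁ j)) = if i = j then 1 else 0 := by
    intro i j
    rw [← (std_spec U₁).one i j, ← hw1 i]
    rfl
  rw [Phi]
  simp only
  rw [hext]
  apply le_antisymm
  · rw [Submodule.span_le]
    rintro _ ⟨i, rfl⟩
    exact hwU i
  · intro v hv
    have h1 : v - ∑ i, v (Sum.inl (stdF U₁ i)) • w i = 0 := by
      apply hU
      · exact U.sub_mem hv (U.sum_mem fun i _ => U.smul_mem _ (hwU i))
      · intro x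
        have h2 := (std_spec U₁).span (res1 K ι₁ ι₂ v) ⟨v, hv, rfl⟩
        have h3 := congrFun h2 x
        rw [Pi.sub_apply, sub_eq_zero]
        rw [res1_apply] at h3
        rw [h3, Finset.sum_apply, Finset.sum_apply]
        refine Finset.sum_congr rfl fun i _ => ?_
        rw [Pi.smul_apply, Pi.smul_apply, res1_apply, ← hw1 i, res1_apply]
    rw [sub_eq_zero] at h1
    rw [h1]
    exact Submodule.sum_mem _ fun i _ => Submodule.smul_mem _ _ (Submodule.subset_span ⟨i, rfl⟩)

/-- The patterns missing from a matrix. -/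
def BadD {m : ℕ} (D : ι₂ → Fin m → K) : Prop :=
  ∃ i j l : Fin m, i ≠ j ∧ i ≠ l ∧ j ≠ l ∧ ∃ a b c : K, ∀ x, ¬ (D x i = a ∧ D x j = b ∧ D x l = c)

lemma good2_Phi (x : Σ U : Submodule K (ι₁ → K), ι₂ → Fin (finrank K U) → K)
    (hm : 3 ≤ finrank K x.1) (hD : ¬ BadD x.2) : Good2 (Phi x) := by
  refine ⟨_, _, _, hm, Phi_std x, ?_⟩
  intro i j l hij hil hjl a b c
  by_contra hcon
  apply hD
  refine ⟨i, j, l, hij, hil, hjl, a, b, c, fun y hy => hcon ⟨Sum.inr y, ?_, hy⟩⟩
  intro k h
  simp at h

end Param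

section Counting

variable [Finite K]

lemma card_pattern {m : ℕ} {i j l : Fin m} (hij : i ≠ j) (hil : i ≠ l) (hjl : j ≠ l)
    (a b c : K) : Nat.card {v : Fin m → K // v i = a ∧ v j = b ∧ v l = c} =
      Nat.card K ^ (m - 3) := by
  classical
  have hfK := Fintype.ofFinite K
  let s : Fin m → Finset K := fun k => if k = i then {a} else if k = j then {b} else
    if k = l then {c} else Finset.univ
  have h1 : (Finset.univ.filter fun v : Fin m → K => v i = a ∧ v j = b ∧ v l = c) =
      Fintype.piFinset s := by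
    ext v
    simp only [Finset.mem_filter, Finset.mem_univ, true_and, Fintype.mem_piFinset]
    constructor
    · rintro ⟨h1, h2, h3⟩ k
      simp only [s]
      split_ifs with e1 e2 e3
      · rw [e1, h1]; simp
      · rw [e2, h2]; simp
      · rw [e3, h3]; simp
      · simp
    · intro h
      have e1 := h i
      have e2 := h j
      have e3 := h l
      have hji : ¬ j = i := fun h => hij h.symm
      have hli : ¬ l = i := fun h => hil h.symm
      have hlj : ¬ l = j := fun h => hjl h.symm
      simp only [s, if_pos, Finset.mem_singleton] at e1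
      simp only [s, if_neg hji, if_pos, Finset.mem_singleton] at e2
      simp only [s, if_neg hli, if_neg hlj, if_pos, Finset.mem_singleton] at e3
      exact ⟨e1, e2, e3⟩
  rw [Nat.card_eq_fintype_card, Fintype.card_subtype, h1, Fintype.card_piFinset]
  have h2 : ∀ k, (s k).card = if k ∈ ({i, j, l} : Finset (Fin m)) then 1 else Nat.card K := by
    intro k
    simp only [s, Finset.mem_insert, Finset.mem_singleton]
    by_cases e1 : k = i
    · simp [e1]
    · by_cases e2 : k = j
      · simp [e2, hij.symm]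
      · by_cases e3 : k = l
        · simp [e3, hil.symm, hjl.symm]
        · simp [e1, e2, e3, Nat.card_eq_fintype_card, Finset.card_univ]
  rw [Finset.prod_congr rfl fun k _ => h2 k, Finset.prod_ite, Finset.prod_const_one, one_mul,
    Finset.prod_const]
  congr 1
  have h3 : (Finset.univ.filter fun k => k ∉ ({i, j, l} : Finset (Fin m))) =
      ({i, j, l} : Finset (Fin m))ᶜ := by
    ext k; simp
  rw [h3, Finset.card_compl, Fintype.card_fin]
  have h4 : ({i, j, l} : Finset (Fin m)).card = 3 := by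
    rw [Finset.card_insert_of_notMem (by simp [hij, hil]), Finset.card_pair hjl]
  rw [h4]

/-- The probability that a given pattern does not occur in a given column. -/
noncomputable def theta (K : Type*) [Field K] : ℝ := 1 - 1 / (Nat.card K : ℝ) ^ 3

lemma theta_nonneg : 0 ≤ theta K := by
  have h : (1 : ℝ) ≤ (Nat.card K : ℝ) ^ 3 := by
    apply one_le_pow₀
    exact_mod_cast (one_lt_card (K := K)).le
  rw [theta, sub_nonneg, div_le_one (by linarith)]
  exact h

lemma theta_lt_one : theta K < 1 := by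
  have h : (0 : ℝ) < (Nat.card K : ℝ) ^ 3 := by
    have : (0 : ℝ) < Nat.card K := by exact_mod_cast Nat.card_pos
    positivity
  rw [theta]
  have : 0 < 1 / (Nat.card K : ℝ) ^ 3 := by positivity
  linarith

lemma card_no_pattern {m : ℕ} {i j l : Fin m} (hij : i ≠ j) (hil : i ≠ l)
    (hjl : j ≠ l) (a b c : K) :
    (Nat.card {v : Fin m → K // ¬ (v i = a ∧ v j = b ∧ v l = c)} : ℝ) =
      theta K * (Nat.card K : ℝ) ^ m := by
  classical
  have hfK := Fintype.ofFinite K
  have hm : 3 ≤ m := by
    have h4 : ({i, j, l} : Finset (Fin m)).card = 3 := by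
      rw [Finset.card_insert_of_notMem (by simp [hij, hil]), Finset.card_pair hjl]
    have := Finset.card_le_univ ({i, j, l} : Finset (Fin m))
    rw [h4, Fintype.card_fin] at this
    exact this
  have h1 := card_pattern hij hil hjl a b c
  have h2 : Nat.card {v : Fin m → K // v i = a ∧ v j = b ∧ v l = c} +
      Nat.card {v : Fin m → K // ¬ (v i = a ∧ v j = b ∧ v l = c)} = Nat.card K ^ m := by
    have h3 : Nat.card (Fin m → K) = Nat.card K ^ m := by
      rw [Nat.card_fun, Nat.card_eq_fintype_card (α := Fin m), Fintype.card_fin]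
    rw [← h3, Nat.card_eq_fintype_card, Nat.card_eq_fintype_card, Nat.card_eq_fintype_card,
      Fintype.card_subtype_compl]
    have := Fintype.card_subtype_le (fun v : Fin m → K => v i = a ∧ v j = b ∧ v l = c)
    omega
  rw [h1] at h2
  have h4 : ((Nat.card K : ℝ) ^ (m - 3)) +
      (Nat.card {v : Fin m → K // ¬ (v i = a ∧ v j = b ∧ v l = c)} : ℝ) =
      (Nat.card K : ℝ) ^ m := by exact_mod_cast h2
  have hq : (Nat.card K : ℝ) ≠ 0 := by
    have : (0 : ℝ) < Nat.card K := by exact_mod_cast Nat.card_pos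
    exact this.ne'
  have h5 : (Nat.card K : ℝ) ^ m = (Nat.card K : ℝ) ^ (m - 3) * (Nat.card K : ℝ) ^ 3 := by
    rw [← pow_add]; congr 1; omega
  have h6 : theta K * (Nat.card K : ℝ) ^ m = (Nat.card K : ℝ) ^ m - (Nat.card K : ℝ) ^ (m - 3) := by
    rw [theta, h5]
    field_simp
  rw [h6]
  linarith

lemma card_badD {m n : ℕ} :
    (Nat.card {D : Fin n → Fin m → K // BadD D} : ℝ) ≤
      (m : ℝ) ^ 3 * (Nat.card K : ℝ) ^ 3 * (theta K ^ n * ((Nat.card K : ℝ) ^ m) ^ n) := by
  classical
  have hfK := Fintype.ofFinite K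
  let T := {t : Fin m × Fin m × Fin m // t.1 ≠ t.2.1 ∧ t.1 ≠ t.2.2 ∧ t.2.1 ≠ t.2.2} × (K × K × K)
  let F : T → Finset (Fin n → Fin m → K) := fun t => Finset.univ.filter fun D =>
    ∀ x, ¬ (D x t.1.1.1 = t.2.1 ∧ D x t.1.1.2.1 = t.2.2.1 ∧ D x t.1.1.2.2 = t.2.2.2)
  have h1 : (Finset.univ.filter fun D : Fin n → Fin m → K => BadD D) ⊆
      (Finset.univ : Finset T).biUnion F := by
    intro D hD
    obtain ⟨i, j, l, hij, hil, hjl, a, b, c, h⟩ := (Finset.mem_filter.1 hD).2
    rw [Finset.mem_biUnion]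
    exact ⟨(⟨(i, j, l), hij, hil, hjl⟩, (a, b, c)), Finset.mem_univ _,
      Finset.mem_filter.2 ⟨Finset.mem_univ _, h⟩⟩
  have h2 : ∀ t : T, ((F t).card : ℝ) = theta K ^ n * ((Nat.card K : ℝ) ^ m) ^ n := by
    rintro ⟨⟨⟨i, j, l⟩, hij, hil, hjl⟩, ⟨a, b, c⟩⟩
    have h3 : (F (⟨(i, j, l), hij, hil, hjl⟩, (a, b, c))).card =
        Nat.card (Fin n → {v : Fin m → K // ¬ (v i = a ∧ v j = b ∧ v l = c)}) := by
      rw [Nat.card_eq_fintype_card, ← Fintype.card_coe]
      apply Fintype.card_congr
      refine ⟨fun D x => ⟨D.1 x, (Finset.mem_filter.1 D.2).2 x⟩, fun D => ⟨fun x => (D x).1,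
        Finset.mem_filter.2 ⟨Finset.mem_univ _, fun x => (D x).2⟩⟩, fun D => rfl, fun D => rfl⟩
    rw [h3, Nat.card_fun, Nat.card_eq_fintype_card (α := Fin n), Fintype.card_fin]
    push_cast
    rw [card_no_pattern hij hil hjl, mul_pow]
  have h4 : (Nat.card {D : Fin n → Fin m → K // BadD D} : ℝ) ≤
      ∑ t : T, ((F t).card : ℝ) := by
    rw [Nat.card_eq_fintype_card, Fintype.card_subtype]
    exact_mod_cast (Finset.card_le_card h1).trans Finset.card_biUnion_le
  refine h4.trans ?_
  rw [Finset.sum_congr rfl fun t _ => h2 t, Finset.sum_const, nsmul_eq_mul]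
  have h5 : ((Finset.univ : Finset T).card : ℝ) ≤ (m : ℝ) ^ 3 * (Nat.card K : ℝ) ^ 3 := by
    have h6 : Fintype.card T ≤ m ^ 3 * Nat.card K ^ 3 := by
      rw [Fintype.card_prod, Fintype.card_prod, Fintype.card_prod, ← Nat.card_eq_fintype_card (α := K)]
      apply Nat.mul_le_mul
      · refine (Fintype.card_subtype_le _).trans ?_
        rw [Fintype.card_prod, Fintype.card_prod, Fintype.card_fin]
        exact le_of_eq (by ring)
      · exact le_of_eq (by ring)
    rw [Finset.card_univ]
    exact_mod_cast h6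
  have h7 : 0 ≤ theta K ^ n * ((Nat.card K : ℝ) ^ m) ^ n :=
    mul_nonneg (pow_nonneg theta_nonneg _) (by positivity)
  exact mul_le_mul_of_nonneg_right h5 h7

end Counting

end Pool.Agent.Lib.MP_e84969_co
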