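import Pool.Agent.Lib.MP_e84969_co.Conf

/-!
# Upper bound for the number of orbits of semimonomial transformations on subspaces
-/

set_option linter.unusedSectionVars false

namespace Pool.Agent.Lib.MP_e84969_co

open Module SM Filter Topology

variable (K : Type*) [Field K]

/-- The number of orbits on the subspaces of `K^n`. -/
noncomputable def numOrb (n : ℕ) : ℕ :=
  Nat.card (Quotient (MulAction.orbitRel (SM K (Fin n)) (Submodule K (Fin n → K))))

variable {K} [Finite K]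

lemma burnside (n : ℕ) [Fintype (SM K (Fin n))] :
    ∑ g : SM K (Fin n), Nat.card {U : Submodule K (Fin n → K) // g • U = U} =
      numOrb K n * Nat.card (SM K (Fin n)) := by
  classical
  have := finite_submodule (K := K) (V := Fin n → K)
  have hfin := Fintype.ofFinite (Submodule K (Fin n → K))
  have hq := Fintype.ofFinite (Quotient (MulAction.orbitRel (SM K (Fin n))
    (Submodule K (Fin n → K))))
  have h := MulAction.sum_card_fixedBy_eq_card_orbits_mul_card_group (SM K (Fin n))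
    (Submodule K (Fin n → K))
  rw [numOrb, Nat.card_eq_fintype_card, Nat.card_eq_fintype_card, ← h]
  refine Finset.sum_congr rfl fun g _ => ?_
  rw [Nat.card_eq_fintype_card]
  exact Fintype.card_congr (Equiv.refl _)

lemma card_close_zero (n : ℕ) :
    Nat.card {g : SM K (Fin n) // Close g 0} ≤ Nat.card K - 1 := by
  rw [← Nat.card_units]
  have hex : ∀ g : {g : SM K (Fin n) // Close g 0}, ∃ c, g.1 = scalar K (Fin n) c :=
    fun g => close_zero_iff.1 g.2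
  choose c hc using hex
  apply Nat.card_le_card_of_injective c
  intro g g' h
  apply Subtype.ext
  rw [hc g, hc g', h]

lemma card_filter_close (n m : ℕ) [Fintype (SM K (Fin n))]
    [DecidablePred fun g : SM K (Fin n) => Close g m] :
    (Finset.univ.filter fun g : SM K (Fin n) => Close g m).card =
      Nat.card {g : SM K (Fin n) // Close g m} := by
  rw [Nat.card_eq_fintype_card, Fintype.card_subtype]

/-- Burnside's lemma with the estimates for the numbers of fixed subspaces. -/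
lemma orbits_bound (n τ : ℕ) (hn : 8 * τ + 2 ≤ n) :
    numOrb K n * Nat.card (SM K (Fin n)) ≤
      (Nat.card K - 1) * numSub K n +
      (Nat.card K ^ (8 * τ + 1) * n ^ (16 * τ)) * ((2 + Nat.card K ^ 2) * numSub K (n - 1)) +
      Nat.card (SM K (Fin n)) * ((2 ^ (2 * τ + 1) + Nat.card K ^ (2 * (2 * τ + 1) * (τ + 1))) *
        numSub K (n - (τ + 1))) := by
  classical
  have hfin := Fintype.ofFinite (SM K (Fin n))
  have hsub := finite_submodule (K := K) (V := Fin n → K)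
  rw [← burnside]
  set A := (2 + Nat.card K ^ 2) * numSub K (n - 1) with hA
  set B := (2 ^ (2 * τ + 1) + Nat.card K ^ (2 * (2 * τ + 1) * (τ + 1))) *
        numSub K (n - (τ + 1)) with hB
  have hle : ∀ g : SM K (Fin n), Nat.card {U : Submodule K (Fin n → K) // g • U = U} ≤
      (if Close g 0 then numSub K n else 0) + (if Close g (8 * τ) then A else 0) + B := by
    intro g
    by_cases h0 : Close g 0
    · rw [if_pos h0]
      have : Nat.card {U : Submodule K (Fin n → K) // g • U = U} ≤ numSub K n :=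
        Nat.card_le_card_of_injective Subtype.val Subtype.val_injective
      omega
    · by_cases h1 : Close g (8 * τ)
      · rw [if_pos h1]
        obtain ⟨C⟩ := exists_config (g := g) 1 (by simpa using h0) (by
          rw [Fintype.card_fin]; omega)
        have := card_fixed_le (t := 1) rfl C
        have h2 : (2 ^ 1 + Nat.card K ^ (2 * 1 * 1)) * numSub K (n - 1) = A := by
          rw [hA]; ring
        rw [h2] at this
        omega
      · obtain ⟨C⟩ := exists_config (g := g) (2 * τ + 1) (by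
          have : 4 * (2 * τ + 1 - 1) = 8 * τ := by omega
          rw [this]; exact h1) (by
          rw [Fintype.card_fin]; omega)
        have := card_fixed_le (t := τ + 1) (by omega) C
        omega
  refine (Finset.sum_le_sum fun g _ => hle g).trans ?_
  rw [Finset.sum_add_distrib, Finset.sum_add_distrib, ← Finset.sum_filter, ← Finset.sum_filter,
    Finset.sum_const, Finset.sum_const, Finset.sum_const, smul_eq_mul, smul_eq_mul, smul_eq_mul,
    card_filter_close, card_filter_close, Finset.card_univ, ← Nat.card_eq_fintype_card]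
  have h3 := card_close_zero (K := K) n
  have h4 := card_close (K := K) n (8 * τ) (by omega)
  have h5 : 2 * (8 * τ) = 16 * τ := by ring
  rw [h5] at h4
  exact add_le_add (add_le_add (Nat.mul_le_mul_right _ h3) (Nat.mul_le_mul_right _ h4)) le_rfl

/-! ### Asymptotics -/

/-- Polynomials in `τ + 1` are negligible compared with `s ^ τ`. -/
lemma tendsto_poly (C : ℝ) (k : ℕ) {s : ℝ} (hs : 1 < s) :
    Tendsto (fun τ : ℕ => C * ((τ : ℝ) + 1) ^ k / s ^ τ) atTop (𝓝 0) := by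
  have h1 := (tendsto_pow_const_div_const_pow_of_one_lt k hs).comp (tendsto_add_atTop_nat 1)
  have h2 := h1.const_mul (C * s)
  rw [mul_zero] at h2
  refine h2.congr fun τ => ?_
  have hs0 : s ≠ 0 := by positivity
  simp only [Function.comp, Nat.cast_add, Nat.cast_one, pow_succ s τ]
  field_simp

lemma eventually_poly_le (C : ℝ) (k : ℕ) {s : ℝ} (hs : 1 < s) :
    ∀ᶠ τ : ℕ in atTop, C * ((τ : ℝ) + 1) ^ k / s ^ τ ≤ 1 / 2 :=
  (tendsto_poly C k hs).eventually_le_const (by norm_num)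

lemma tendsto_natSqrt : Tendsto Nat.sqrt atTop atTop := by
  apply tendsto_atTop.2
  intro b
  filter_upwards [eventually_ge_atTop (b * b)] with n hn
  exact Nat.le_sqrt.2 hn

/-- First error term. -/
lemma err1 : Tendsto (fun n : ℕ => (Nat.card K : ℝ) ^ (8 * Nat.sqrt n + 1) *
    (n : ℝ) ^ (16 * Nat.sqrt n) * (2 + (Nat.card K : ℝ) ^ 2) / sq K ^ (n - 1)) atTop (𝓝 0) := by
  have hs := one_lt_sq (K := K)
  have hs0 := sq_pos (K := K)
  have hq0 : (0 : ℝ) ≤ Nat.card K := Nat.cast_nonneg _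
  set q : ℝ := (Nat.card K : ℝ) with hq
  -- the bounding sequence
  have hlim : Tendsto (fun n : ℕ => (q * (2 + q ^ 2) * sq K) * (1 / 2 : ℝ) ^ (Nat.sqrt n))
      atTop (𝓝 0) := by
    have := ((tendsto_pow_atTop_nhds_zero_of_lt_one (r := (1 / 2 : ℝ)) (by norm_num)
      (by norm_num)).comp tendsto_natSqrt).const_mul (q * (2 + q ^ 2) * sq K)
    rwa [mul_zero] at this
  refine squeeze_zero' (Eventually.of_forall fun n => ?_) ?_ hlim
  · positivity
  · have hev := tendsto_natSqrt.eventually (eventually_poly_le (q ^ 8) 32 hs)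
    filter_upwards [hev, eventually_ge_atTop 1] with n hn hn1
    set τ := Nat.sqrt n with hτ
    have hτ1 : 1 ≤ τ := Nat.le_sqrt.2 (by simpa using hn1)
    have h1 : n ≤ (τ + 1) * (τ + 1) := (Nat.lt_succ_sqrt n).le
    have h2 : τ * τ ≤ n := Nat.sqrt_le n
    have h3 : (n : ℝ) ≤ ((τ : ℝ) + 1) ^ 2 := by
      have : ((n : ℕ) : ℝ) ≤ (((τ + 1) * (τ + 1) : ℕ) : ℝ) := by exact_mod_cast h1
      rw [pow_two]
      push_cast at this
      exact this
    have h4 : (n : ℝ) ^ (16 * τ) ≤ (((τ : ℝ) + 1) ^ 32) ^ τ := by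
      calc (n : ℝ) ^ (16 * τ) ≤ (((τ : ℝ) + 1) ^ 2) ^ (16 * τ) :=
            pow_le_pow_left₀ (Nat.cast_nonneg _) h3 _
        _ = (((τ : ℝ) + 1) ^ 32) ^ τ := by rw [← pow_mul, ← pow_mul]; ring_nf
    have h5 : sq K ^ (τ * τ) ≤ sq K ^ (n - 1) * sq K := by
      rw [← pow_succ]
      exact pow_le_pow_right₀ hs.le (by omega)
    rw [div_le_iff₀ (pow_pos hs0 _)]
    have h6 : (q ^ 8 * ((τ : ℝ) + 1) ^ 32) ^ τ ≤ (1 / 2 : ℝ) ^ τ * sq K ^ (τ * τ) := by
      rw [pow_mul, ← mul_pow]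
      apply pow_le_pow_left₀ (by positivity)
      rwa [div_le_iff₀ (pow_pos hs0 _)] at hn
    calc q ^ (8 * τ + 1) * (n : ℝ) ^ (16 * τ) * (2 + q ^ 2)
        ≤ q ^ (8 * τ + 1) * (((τ : ℝ) + 1) ^ 32) ^ τ * (2 + q ^ 2) := by gcongr
      _ = (q * (2 + q ^ 2)) * (q ^ 8 * ((τ : ℝ) + 1) ^ 32) ^ τ := by
          rw [mul_pow, ← pow_mul q 8 τ]; ring
      _ ≤ (q * (2 + q ^ 2)) * ((1 / 2 : ℝ) ^ τ * sq K ^ (τ * τ)) := by gcongr
      _ ≤ (q * (2 + q ^ 2)) * ((1 / 2 : ℝ) ^ τ * (sq K ^ (n - 1) * sq K)) := by gcongr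
      _ = (q * (2 + q ^ 2) * sq K) * (1 / 2 : ℝ) ^ τ * sq K ^ (n - 1) := by ring

/-- Second error term. -/
lemma err2 (k : ℝ) (hk : 0 ≤ k) : Tendsto (fun n : ℕ => ((n : ℝ) ^ n * ((Nat.card K : ℝ) ^ n * k)) *
    (2 ^ (2 * Nat.sqrt n + 1) + (Nat.card K : ℝ) ^ (2 * (2 * Nat.sqrt n + 1) * (Nat.sqrt n + 1))) /
      sq K ^ ((Nat.sqrt n + 1) * (n - (Nat.sqrt n + 1)))) atTop (𝓝 0) := by
  have hs := one_lt_sq (K := K)
  have hs0 := sq_pos (K := K)
  have hq2 : (2 : ℝ) ≤ Nat.card K := by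
    have := one_lt_card (K := K)
    exact_mod_cast this
  set q : ℝ := (Nat.card K : ℝ) with hq
  have hq0 : 0 < q := by linarith
  have hlim : Tendsto (fun n : ℕ => (2 * k) * (1 / 2 : ℝ) ^ (Nat.sqrt n))
      atTop (𝓝 0) := by
    have := ((tendsto_pow_atTop_nhds_zero_of_lt_one (r := (1 / 2 : ℝ)) (by norm_num)
      (by norm_num)).comp tendsto_natSqrt).const_mul (2 * k)
    rwa [mul_zero] at this
  refine squeeze_zero' (Eventually.of_forall fun n => ?_) ?_ hlim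
  · positivity
  · have hev := tendsto_natSqrt.eventually (eventually_poly_le (q ^ 15 * sq K ^ 3) 6 hs)
    filter_upwards [hev, eventually_ge_atTop 16] with n hn hn1
    set τ := Nat.sqrt n with hτ
    have hτ1 : 4 ≤ τ := Nat.le_sqrt.2 (by simpa using hn1)
    have h1 : n < (τ + 1) * (τ + 1) := Nat.lt_succ_sqrt n
    have h2 : τ * τ ≤ n := Nat.sqrt_le n
    have h3 : (n : ℝ) ≤ ((τ : ℝ) + 1) ^ 2 := by
      have : ((n : ℕ) : ℝ) ≤ (((τ + 1) * (τ + 1) : ℕ) : ℝ) := by exact_mod_cast h1.le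
      rw [pow_two]
      push_cast at this
      exact this
    have h3' : n ≤ 3 * (τ * τ) := by nlinarith
    have hbase : (1 : ℝ) ≤ ((τ : ℝ) + 1) ^ 2 * q := by
      have : (1 : ℝ) ≤ ((τ : ℝ) + 1) ^ 2 := by
        apply one_le_pow₀; linarith [Nat.cast_nonneg (α := ℝ) τ]
      nlinarith
    have h4 : (n : ℝ) ^ n * q ^ n ≤ (((τ : ℝ) + 1) ^ 6 * q ^ 3) ^ (τ * τ) := by
      calc (n : ℝ) ^ n * q ^ n = ((n : ℝ) * q) ^ n := by rw [mul_pow]
        _ ≤ (((τ : ℝ) + 1) ^ 2 * q) ^ n := by gcongr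
        _ ≤ (((τ : ℝ) + 1) ^ 2 * q) ^ (3 * (τ * τ)) := pow_le_pow_right₀ hbase h3'
        _ = (((τ : ℝ) + 1) ^ 6 * q ^ 3) ^ (τ * τ) := by rw [pow_mul]; congr 1; ring
    have h5 : (2 : ℝ) ^ (2 * τ + 1) + q ^ (2 * (2 * τ + 1) * (τ + 1)) ≤
        2 * (q ^ 12) ^ (τ * τ) := by
      have e1 : (2 : ℝ) ^ (2 * τ + 1) ≤ q ^ (12 * (τ * τ)) := by
        calc (2 : ℝ) ^ (2 * τ + 1) ≤ q ^ (2 * τ + 1) := by gcongr
          _ ≤ q ^ (12 * (τ * τ)) := pow_le_pow_right₀ (by linarith) (by nlinarith)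
      have e2 : q ^ (2 * (2 * τ + 1) * (τ + 1)) ≤ q ^ (12 * (τ * τ)) :=
        pow_le_pow_right₀ (by linarith) (by nlinarith)
      rw [← pow_mul]
      linarith
    have h6 : sq K ^ (τ * (τ * τ)) ≤
        sq K ^ ((τ + 1) * (n - (τ + 1))) * (sq K ^ 3) ^ (τ * τ) := by
      rw [← pow_mul, ← pow_add]
      apply pow_le_pow_right₀ hs.le
      obtain ⟨d, hd⟩ : ∃ d, n = τ * τ + d := ⟨n - τ * τ, by omega⟩
      have h7 : n - (τ + 1) = τ * τ + d - (τ + 1) := by rw [hd]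
      have h8 : τ + 1 ≤ τ * τ := by nlinarith
      have h9 : (τ + 1) * (τ * τ - (τ + 1)) ≤ (τ + 1) * (n - (τ + 1)) :=
        Nat.mul_le_mul_left _ (by omega)
      have h10 : τ * (τ * τ) ≤ (τ + 1) * (τ * τ - (τ + 1)) + 3 * (τ * τ) := by
        obtain ⟨e, he⟩ : ∃ e, τ * τ = (τ + 1) + e := ⟨τ * τ - (τ + 1), by omega⟩
        have : τ * τ - (τ + 1) = e := by omega
        rw [this]
        nlinarith
      omega
    rw [div_le_iff₀ (pow_pos hs0 _)]
    have hττ : τ ≤ τ * τ := by nlinarith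
    have h11 : ((q ^ 15 * sq K ^ 3) * ((τ : ℝ) + 1) ^ 6) ^ (τ * τ) ≤
        (1 / 2 : ℝ) ^ τ * sq K ^ (τ * (τ * τ)) := by
      rw [div_le_iff₀ (pow_pos hs0 _)] at hn
      calc ((q ^ 15 * sq K ^ 3) * ((τ : ℝ) + 1) ^ 6) ^ (τ * τ)
          ≤ (1 / 2 * sq K ^ τ) ^ (τ * τ) := pow_le_pow_left₀ (by positivity) hn _
        _ = (1 / 2 : ℝ) ^ (τ * τ) * sq K ^ (τ * (τ * τ)) := by rw [mul_pow, ← pow_mul]
        _ ≤ (1 / 2 : ℝ) ^ τ * sq K ^ (τ * (τ * τ)) := by
            gcongr ?_ * _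
            exact pow_le_pow_of_le_one (by norm_num) (by norm_num) hττ
    have hfin : (((τ : ℝ) + 1) ^ 6 * q ^ 3) ^ (τ * τ) * (q ^ 12) ^ (τ * τ) *
        (sq K ^ 3) ^ (τ * τ) ≤ (1 / 2 : ℝ) ^ τ * (sq K ^ ((τ + 1) * (n - (τ + 1))) *
          (sq K ^ 3) ^ (τ * τ)) := by
      calc (((τ : ℝ) + 1) ^ 6 * q ^ 3) ^ (τ * τ) * (q ^ 12) ^ (τ * τ) * (sq K ^ 3) ^ (τ * τ)
          = ((q ^ 15 * sq K ^ 3) * ((τ : ℝ) + 1) ^ 6) ^ (τ * τ) := by
            rw [← mul_pow, ← mul_pow]; congr 1; ring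
        _ ≤ (1 / 2 : ℝ) ^ τ * sq K ^ (τ * (τ * τ)) := h11
        _ ≤ (1 / 2 : ℝ) ^ τ * (sq K ^ ((τ + 1) * (n - (τ + 1))) * (sq K ^ 3) ^ (τ * τ)) := by
            gcongr
    have hpos3 : 0 < (sq K ^ 3) ^ (τ * τ) := by positivity
    have hfin2 : (((τ : ℝ) + 1) ^ 6 * q ^ 3) ^ (τ * τ) * (q ^ 12) ^ (τ * τ) ≤
        (1 / 2 : ℝ) ^ τ * sq K ^ ((τ + 1) * (n - (τ + 1))) := by
      have : (((τ : ℝ) + 1) ^ 6 * q ^ 3) ^ (τ * τ) * (q ^ 12) ^ (τ * τ) *
        (sq K ^ 3) ^ (τ * τ) ≤ ((1 / 2 : ℝ) ^ τ * sq K ^ ((τ + 1) * (n - (τ + 1)))) *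
          (sq K ^ 3) ^ (τ * τ) := by
        calc _ ≤ _ := hfin
          _ = _ := by ring
      exact le_of_mul_le_mul_right this hpos3
    calc (n : ℝ) ^ n * (q ^ n * k) * (2 ^ (2 * τ + 1) + q ^ (2 * (2 * τ + 1) * (τ + 1)))
        = k * ((n : ℝ) ^ n * q ^ n) * (2 ^ (2 * τ + 1) + q ^ (2 * (2 * τ + 1) * (τ + 1))) := by
          ring
      _ ≤ k * ((((τ : ℝ) + 1) ^ 6 * q ^ 3) ^ (τ * τ)) * (2 * (q ^ 12) ^ (τ * τ)) := by
          gcongr
      _ = (2 * k) * ((((τ : ℝ) + 1) ^ 6 * q ^ 3) ^ (τ * τ) * (q ^ 12) ^ (τ * τ)) := by ring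
      _ ≤ (2 * k) * ((1 / 2 : ℝ) ^ τ * sq K ^ ((τ + 1) * (n - (τ + 1)))) := by gcongr
      _ = (2 * k) * (1 / 2 : ℝ) ^ τ * sq K ^ ((τ + 1) * (n - (τ + 1))) := by ring

/-- The number of orbits is at most `(1 + o(1))` times the expected number. -/
theorem upper : ∃ e : ℕ → ℝ, Tendsto e atTop (𝓝 0) ∧ ∀ᶠ n in atTop,
    (numOrb K n : ℝ) * Nat.card (SM K (Fin n)) ≤ ((Nat.card K - 1 : ℕ) + e n) * numSub K n := by
  have hs0 := sq_pos (K := K)
  refine ⟨fun n => (Nat.card K : ℝ) ^ (8 * Nat.sqrt n + 1) *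
    (n : ℝ) ^ (16 * Nat.sqrt n) * (2 + (Nat.card K : ℝ) ^ 2) / sq K ^ (n - 1) +
    ((n : ℝ) ^ n * ((Nat.card K : ℝ) ^ n * (Nat.card (RingAut K) : ℝ))) *
    (2 ^ (2 * Nat.sqrt n + 1) + (Nat.card K : ℝ) ^ (2 * (2 * Nat.sqrt n + 1) * (Nat.sqrt n + 1))) /
      sq K ^ ((Nat.sqrt n + 1) * (n - (Nat.sqrt n + 1))), ?_, ?_⟩
  · have := (err1 (K := K)).add (err2 (K := K) (Nat.card (RingAut K) : ℝ) (Nat.cast_nonneg _))
    rwa [add_zero] at this
  · filter_upwards [eventually_ge_atTop 100] with n hn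
    set τ := Nat.sqrt n with hτ
    have h2 : τ * τ ≤ n := Nat.sqrt_le n
    have hτ10 : 10 ≤ τ := Nat.le_sqrt.2 (by omega)
    have h3 : 8 * τ + 2 ≤ n := by nlinarith
    have h4 := orbits_bound (K := K) n τ h3
    have h5 : (numOrb K n : ℝ) * Nat.card (SM K (Fin n)) ≤
      (Nat.card K - 1 : ℕ) * numSub K n +
      ((Nat.card K : ℝ) ^ (8 * τ + 1) * (n : ℝ) ^ (16 * τ)) *
        ((2 + (Nat.card K : ℝ) ^ 2) * numSub K (n - 1)) +
      Nat.card (SM K (Fin n)) * (((2 : ℝ) ^ (2 * τ + 1) +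
        (Nat.card K : ℝ) ^ (2 * (2 * τ + 1) * (τ + 1))) * numSub K (n - (τ + 1))) := by
      exact_mod_cast h4
    have h6 : (numSub K (n - 1) : ℝ) ≤ numSub K n / sq K ^ (n - 1) := by
      rw [le_div_iff₀ (pow_pos hs0 _)]
      have := ratio_iter (K := K) n 1 (by omega)
      rw [one_mul] at this
      linarith
    have h7 : (numSub K (n - (τ + 1)) : ℝ) ≤
        numSub K n / sq K ^ ((τ + 1) * (n - (τ + 1))) := by
      rw [le_div_iff₀ (pow_pos hs0 _)]
      have := ratio_iter (K := K) n (τ + 1) (by omega)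
      linarith
    have h8 : (Nat.card (SM K (Fin n)) : ℝ) ≤
        (n : ℝ) ^ n * ((Nat.card K : ℝ) ^ n * (Nat.card (RingAut K) : ℝ)) := by
      rw [card_SM]
      push_cast
      have h9 : (Nat.card Kˣ : ℝ) ≤ Nat.card K := by
        exact_mod_cast Nat.card_le_card_of_injective (fun u : Kˣ => (u : K)) Units.val_injective
      have h10 : (n.factorial : ℝ) ≤ (n : ℝ) ^ n := by exact_mod_cast Nat.factorial_le_pow n
      gcongr
    calc (numOrb K n : ℝ) * Nat.card (SM K (Fin n)) ≤ _ := h5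
      _ ≤ (Nat.card K - 1 : ℕ) * numSub K n +
      ((Nat.card K : ℝ) ^ (8 * τ + 1) * (n : ℝ) ^ (16 * τ)) *
        ((2 + (Nat.card K : ℝ) ^ 2) * (numSub K n / sq K ^ (n - 1))) +
      ((n : ℝ) ^ n * ((Nat.card K : ℝ) ^ n * (Nat.card (RingAut K) : ℝ))) *
        (((2 : ℝ) ^ (2 * τ + 1) + (Nat.card K : ℝ) ^ (2 * (2 * τ + 1) * (τ + 1))) *
          (numSub K n / sq K ^ ((τ + 1) * (n - (τ + 1))))) := by
          gcongr
      _ = _ := by ring

end Pool.Agent.Lib.MP_e84969_co
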